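import Mathlib

open FirstOrder Cardinal MeasureTheory Set
open scoped unitInterval Topology

namespace Pool.Agent.Results.MP_eefa83_lc.NotPreserved

/-- A complete first-order theory `T` is `κ`-stable: for every model `M` of `T`, every set
`A ⊆ M` with at most `κ` elements and every `n`, there are at most `κ` complete `n`-types
over `A` (complete types in `n` variables over the elementary diagram `Th(M_A)`). -/
def FOStable {L : FirstOrder.Language.{0, 0}} (T : L.Theory) (κ : Cardinal.{0}) : Prop :=
  ∀ (M : Type) [L.Structure M] [Nonempty M] [M ⊨ T] (A : Set M), #A ≤ κ →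
    ∀ n : ℕ, #((L[[A]].completeTheory M).CompleteType (Fin n)) ≤ κ

/-- A metric structure for the two-sorted continuous language of randomizations of
`L`-structures: a sort `K` of random elements and a sort `B` of events, both complete metric
spaces of diameter at most `1`; for every `L`-formula `φ` in `n` variables a function
`br φ : K ^ n → B`; the Boolean operations on `B` and the predicate `mu` on `B` with values in
`[0,1]`; each symbol comes with the stated Lipschitz modulus of uniform continuity. -/
structure RStr (L : FirstOrder.Language.{0, 0}) where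
  K : Type
  B : Type
  [metK : MetricSpace K]
  [metB : MetricSpace B]
  [complK : CompleteSpace K]
  [complB : CompleteSpace B]
  distK_le : ∀ f g : K, dist f g ≤ 1
  distB_le : ∀ E F : B, dist E F ≤ 1
  br : ∀ {n : ℕ}, L.Formula (Fin n) → (Fin n → K) → B
  top : B
  bot : B
  inf : B → B → B
  sup : B → B → B
  compl : B → B
  mu : B → I
  br_lip : ∀ {n : ℕ} (φ : L.Formula (Fin n)) (f g : Fin n → K),
    dist (br φ f) (br φ g) ≤ ∑ i, dist (f i) (g i)
  inf_lip : ∀ E F E' F' : B, dist (inf E F) (inf E' F') ≤ dist E E' + dist F F'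
  sup_lip : ∀ E F E' F' : B, dist (sup E F) (sup E' F') ≤ dist E E' + dist F F'
  compl_lip : ∀ E F : B, dist (compl E) (compl F) ≤ dist E F
  mu_lip : ∀ E F : B, dist (mu E) (mu F) ≤ dist E F

attribute [instance] RStr.metK RStr.metB RStr.complK RStr.complB

/-- Terms of the event sort; `V` is the set of variables of the sort of random elements, `W` the
set of variables of the sort of events. (The only terms of the sort of random elements are the
variables.) -/
inductive ETerm (L : FirstOrder.Language.{0, 0}) (V W : Type) : Type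
  | var : W → ETerm L V W
  | br {n : ℕ} (φ : L.Formula (Fin n)) (x : Fin n → V) : ETerm L V W
  | top : ETerm L V W
  | bot : ETerm L V W
  | inf : ETerm L V W → ETerm L V W → ETerm L V W
  | sup : ETerm L V W → ETerm L V W → ETerm L V W
  | compl : ETerm L V W → ETerm L V W

/-- Formulas of continuous logic in the language of randomizations. `V`, `W` are the sets of
parameters (or constants) of the two sorts; the two numbers are the numbers of variables of the
two sorts. Atomic formulas are `mu t`, `dK s t`, `dB s t`; every continuous function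
`[0,1]^k → [0,1]` is a connective; the quantifiers are `sup` and `inf` over each sort, and bind
the last variable. -/
inductive CFormula (L : FirstOrder.Language.{0, 0}) (V W : Type) : ℕ → ℕ → Type
  | mu {n m : ℕ} (t : ETerm L (V ⊕ Fin n) (W ⊕ Fin m)) : CFormula L V W n m
  | dK {n m : ℕ} (s t : V ⊕ Fin n) : CFormula L V W n m
  | dB {n m : ℕ} (s t : ETerm L (V ⊕ Fin n) (W ⊕ Fin m)) : CFormula L V W n m
  | conn {n m : ℕ} (k : ℕ) (c : C(Fin k → I, I)) (φ : Fin k → CFormula L V W n m) :
      CFormula L V W n m
  | supK {n m : ℕ} (φ : CFormula L V W (n + 1) m) : CFormula L V W n m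
  | infK {n m : ℕ} (φ : CFormula L V W (n + 1) m) : CFormula L V W n m
  | supB {n m : ℕ} (φ : CFormula L V W n (m + 1)) : CFormula L V W n m
  | infB {n m : ℕ} (φ : CFormula L V W n (m + 1)) : CFormula L V W n m

/-- The value of a term. -/
def ETerm.eval {L : FirstOrder.Language.{0, 0}} (N : RStr L) {V W : Type} (a : V → N.K) (e : W → N.B) :
    ETerm L V W → N.B
  | .var w => e w
  | .br φ x => N.br φ (a ∘ x)
  | .top => N.top
  | .bot => N.bot
  | .inf s t => N.inf (s.eval N a e) (t.eval N a e)
  | .sup s t => N.sup (s.eval N a e) (t.eval N a e)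
  | .compl s => N.compl (s.eval N a e)

/-- The distance between two random elements, as an element of `[0,1]`. -/
noncomputable def RStr.dK {L : FirstOrder.Language.{0, 0}} (N : RStr L) (f g : N.K) : I :=
  ⟨dist f g, dist_nonneg, N.distK_le f g⟩

/-- The distance between two events, as an element of `[0,1]`. -/
noncomputable def RStr.dB {L : FirstOrder.Language.{0, 0}} (N : RStr L) (E F : N.B) : I :=
  ⟨dist E F, dist_nonneg, N.distB_le E F⟩

/-- The value in `[0,1]` of a formula; `a`, `e` interpret the parameters, `x`, `y` the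
variables. -/
noncomputable def CFormula.eval {L : FirstOrder.Language.{0, 0}} (N : RStr L) {V W : Type}
    (a : V → N.K) (e : W → N.B) :
    {n m : ℕ} → CFormula L V W n m → (Fin n → N.K) → (Fin m → N.B) → I
  | _, _, .mu t, x, y => N.mu (t.eval N (Sum.elim a x) (Sum.elim e y))
  | _, _, .dK s t, x, _ => N.dK (Sum.elim a x s) (Sum.elim a x t)
  | _, _, .dB s t, x, y =>
      N.dB (s.eval N (Sum.elim a x) (Sum.elim e y)) (t.eval N (Sum.elim a x) (Sum.elim e y))
  | _, _, .conn _ c φ, x, y => c (fun i => (φ i).eval N a e x y)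
  | _, _, .supK φ, x, y => ⨆ b : N.K, φ.eval N a e (Fin.snoc x b) y
  | _, _, .infK φ, x, y => ⨅ b : N.K, φ.eval N a e (Fin.snoc x b) y
  | _, _, .supB φ, x, y => ⨆ b : N.B, φ.eval N a e x (Fin.snoc y b)
  | _, _, .infB φ, x, y => ⨅ b : N.B, φ.eval N a e x (Fin.snoc y b)

/-- Sentences: formulas without parameters and without free variables. -/
abbrev CSentence (L : FirstOrder.Language.{0, 0}) : Type := CFormula L Empty Empty 0 0

/-- The value of a sentence in a structure. -/
noncomputable def CSentence.val {L : FirstOrder.Language.{0, 0}} (N : RStr L) (s : CSentence L) : I :=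
  CFormula.eval N (fun v => v.elim) (fun w => w.elim) s (fun i => i.elim0) (fun i => i.elim0)

/-- `N` is a model of the continuous theory `S` (a set of sentences `s`, standing for the
conditions `s = 0`). -/
def RStr.Models {L : FirstOrder.Language.{0, 0}} (N : RStr L) (S : Set (CSentence L)) : Prop :=
  ∀ s ∈ S, CSentence.val N s = 0

/-- The measurable maps `Ω → M` with countable range. -/
structure RVar {Ω : Type} [MeasurableSpace Ω] (μ : Measure Ω) (M : Type) where
  toFun : Ω → M
  meas : ∀ m : M, MeasurableSet (toFun ⁻¹' {m})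
  countable_range : (range toFun).Countable

/-- The measurable sets of `Ω`. -/
structure Ev {Ω : Type} [MeasurableSpace Ω] (μ : Measure Ω) where
  set : Set Ω
  meas : MeasurableSet set


section Typical

variable {Ω : Type} [MeasurableSpace Ω] {μ : Measure Ω} {M : Type}

theorem measurableSet_rvar {n : ℕ} (F : Fin n → RVar μ M) (P : (Fin n → M) → Prop) :
    MeasurableSet {ω | P fun i => (F i).toFun ω} := by
  have hc : (Set.pi univ fun i => range (F i).toFun).Countable :=
    Set.countable_univ_pi fun i => (F i).countable_range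
  have h : {ω | P fun i => (F i).toFun ω} =
      ⋃ r ∈ {r ∈ Set.pi univ fun i => range (F i).toFun | P r},
        ⋂ i, (F i).toFun ⁻¹' {r i} := by
    ext ω
    simp only [mem_ofPred_eq, mem_iUnion, mem_iInter, mem_preimage, mem_singleton_iff,
      exists_prop]
    constructor
    · intro h
      exact ⟨fun i => (F i).toFun ω, ⟨fun i _ => mem_range_self ω, h⟩, fun i => rfl⟩
    · rintro ⟨r, ⟨-, h⟩, h'⟩
      have : (fun i => (F i).toFun ω) = r := funext h'
      rwa [this]
  rw [h]
  exact MeasurableSet.biUnion (hc.mono fun r hr => hr.1)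
    fun r _ => MeasurableSet.iInter fun i => (F i).meas (r i)

theorem measurableSet_ne (f g : RVar μ M) : MeasurableSet {ω | f.toFun ω ≠ g.toFun ω} :=
  measurableSet_rvar (μ := μ) ![f, g] (fun r => r 0 ≠ r 1)

noncomputable instance [IsFiniteMeasure μ] : PseudoMetricSpace (RVar μ M) where
  dist f g := μ.real {ω | f.toFun ω ≠ g.toFun ω}
  dist_self f := by simp
  dist_comm f g := by simp only [ne_comm]
  dist_triangle f g h := by
    refine (measureReal_mono ?_).trans (measureReal_union_le {ω | f.toFun ω ≠ g.toFun ω} {ω | g.toFun ω ≠ h.toFun ω})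
    intro ω hω
    by_contra hc
    simp only [mem_union, mem_ofPred_eq, not_or, not_not] at hc
    exact hω (hc.1.trans hc.2)

noncomputable instance [IsFiniteMeasure μ] : PseudoMetricSpace (Ev μ) where
  dist E F := μ.real (symmDiff E.set F.set)
  dist_self E := by simp
  dist_comm E F := by rw [symmDiff_comm]
  dist_triangle E F G := by
    refine (measureReal_mono ?_).trans (measureReal_union_le (symmDiff E.set F.set) (symmDiff F.set G.set))
    exact symmDiff_triangle _ _ _

theorem RVar.dist_def [IsFiniteMeasure μ] (f g : RVar μ M) :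
    dist f g = μ.real {ω | f.toFun ω ≠ g.toFun ω} := rfl

theorem Ev.dist_def [IsFiniteMeasure μ] (E F : Ev μ) :
    dist E F = μ.real (symmDiff E.set F.set) := rfl

/-- tail estimate -/
theorem tail_le [IsFiniteMeasure μ] (D : ℕ → Set Ω) (h : ∀ n, μ.real (D n) ≤ (1 / 2) ^ n) (n : ℕ) :
    μ.real (⋃ k, D (n + k)) ≤ 2 * (1 / 2) ^ n := by
  have h1 : μ (⋃ k, D (n + k)) ≤ ∑' k, μ (D (n + k)) := measure_iUnion_le _
  have h2 : ∑' k, μ (D (n + k)) ≤ ∑' k, ENNReal.ofReal ((1 / 2) ^ (n + k)) := by
    refine ENNReal.tsum_le_tsum fun k => ?_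
    rw [← ofReal_measureReal]
    exact ENNReal.ofReal_le_ofReal (h (n + k))
  have hs : Summable fun k : ℕ => (1 / 2 : ℝ) ^ (n + k) := by
    simp only [pow_add]
    exact (summable_geometric_of_lt_one (by norm_num) (by norm_num)).mul_left _
  rw [← ENNReal.ofReal_tsum_of_nonneg (fun k => by positivity) hs] at h2
  have h3 : ∑' k : ℕ, (1 / 2 : ℝ) ^ (n + k) = 2 * (1 / 2) ^ n := by
    simp only [pow_add]
    rw [tsum_mul_left, tsum_geometric_of_lt_one (by norm_num) (by norm_num)]
    norm_num
    ring
  rw [h3] at h2
  have := ENNReal.toReal_mono ENNReal.ofReal_ne_top (h1.trans h2)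
  rwa [ENNReal.toReal_ofReal (by positivity)] at this

instance [IsFiniteMeasure μ] : CompleteSpace (RVar μ M) := by
  refine Metric.complete_of_convergent_controlled_sequences (fun n => (1 / 2) ^ n)
    (fun n => by positivity) fun u hu => ?_
  set D : ℕ → Set Ω := fun n => {ω | (u n).toFun ω ≠ (u (n + 1)).toFun ω} with hD
  have hD1 : ∀ n, μ.real (D n) ≤ (1 / 2) ^ n := fun n =>
    (hu n n (n + 1) le_rfl (Nat.le_succ n)).le
  set T : ℕ → Set Ω := fun n => ⋃ k, D (n + k) with hT
  have hTm : ∀ n, MeasurableSet (T n) := fun n =>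
    MeasurableSet.iUnion fun k => measurableSet_ne _ _
  have hTn : ∀ n ω, ω ∉ T n → ∀ k, (u (n + k)).toFun ω = (u n).toFun ω := by
    intro n ω hω k
    induction k with
    | zero => rfl
    | succ k ih =>
      have : ω ∉ D (n + k) := fun h => hω (mem_iUnion.2 ⟨k, h⟩)
      simp only [hD, mem_ofPred_eq, ne_eq, not_not] at this
      rw [← add_assoc, ← this, ih]
  have hTT : ∀ n m ω, ω ∉ T n → ω ∉ T m → (u n).toFun ω = (u m).toFun ω := by
    intro n m ω hn hm
    rcases le_total n m with h | h
    · obtain ⟨k, rfl⟩ := Nat.exists_eq_add_of_le h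
      exact (hTn n ω hn k).symm
    · obtain ⟨k, rfl⟩ := Nat.exists_eq_add_of_le h
      exact hTn m ω hm k
  classical
  let F : Ω → M := fun ω => if h : ∃ n, ω ∉ T n then (u h.choose).toFun ω else (u 0).toFun ω
  have hF : ∀ n ω, ω ∉ T n → F ω = (u n).toFun ω := by
    intro n ω hn
    have h : ∃ n, ω ∉ T n := ⟨n, hn⟩
    simp only [F, dif_pos h]
    exact hTT _ _ ω h.choose_spec hn
  have hF0 : ∀ ω, (∀ n, ω ∈ T n) → F ω = (u 0).toFun ω := by
    intro ω h
    have h' : ¬ ∃ n, ω ∉ T n := by push Not; exact h
    simp only [F, dif_neg h']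
  let f : RVar μ M :=
    { toFun := F
      meas := by
        intro m
        have : F ⁻¹' {m} = (⋃ n, (T n)ᶜ ∩ (u n).toFun ⁻¹' {m}) ∪
            ((⋂ n, T n) ∩ (u 0).toFun ⁻¹' {m}) := by
          ext ω
          simp only [mem_preimage, mem_singleton_iff, mem_union, mem_iUnion, mem_inter_iff,
            mem_compl_iff, mem_iInter]
          by_cases h : ∃ n, ω ∉ T n
          · obtain ⟨n, hn⟩ := h
            constructor
            · intro h
              exact Or.inl ⟨n, hn, by rw [← hF n ω hn]; exact h⟩
            · rintro (⟨k, hk, h⟩ | ⟨h, -⟩)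
              · rw [hF k ω hk]; exact h
              · exact absurd (h n) hn
          · push Not at h
            constructor
            · intro h'
              exact Or.inr ⟨h, by rw [← hF0 ω h]; exact h'⟩
            · rintro (⟨k, hk, -⟩ | ⟨-, h'⟩)
              · exact absurd (h k) hk
              · rw [hF0 ω h]; exact h'
        rw [this]
        exact (MeasurableSet.iUnion fun n => (hTm n).compl.inter ((u n).meas m)).union
          ((MeasurableSet.iInter fun n => hTm n).inter ((u 0).meas m))
      countable_range := by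
        refine (Set.countable_iUnion fun n => (u n).countable_range).mono ?_
        rintro _ ⟨ω, rfl⟩
        by_cases h : ∃ n, ω ∉ T n
        · obtain ⟨n, hn⟩ := h
          exact mem_iUnion.2 ⟨n, by rw [hF n ω hn]; exact mem_range_self ω⟩
        · push Not at h
          exact mem_iUnion.2 ⟨0, by rw [hF0 ω h]; exact mem_range_self ω⟩ }
  refine ⟨f, ?_⟩
  rw [tendsto_iff_dist_tendsto_zero]
  refine squeeze_zero (fun _ => dist_nonneg) (g := fun n => 2 * (1 / 2 : ℝ) ^ n) (fun n => ?_) ?_
  · refine le_trans (measureReal_mono ?_) (tail_le D hD1 n)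
    intro ω hω
    by_contra h
    exact hω (hF n ω h).symm
  · have := (tendsto_pow_atTop_nhds_zero_of_lt_one (r := (1 / 2 : ℝ)) (by norm_num)
      (by norm_num)).const_mul 2
    simpa using this

instance [IsFiniteMeasure μ] : CompleteSpace (Ev μ) := by
  refine Metric.complete_of_convergent_controlled_sequences (fun n => (1 / 2) ^ n)
    (fun n => by positivity) fun u hu => ?_
  set D : ℕ → Set Ω := fun n => symmDiff (u n).set (u (n + 1)).set with hD
  have hD1 : ∀ n, μ.real (D n) ≤ (1 / 2) ^ n := fun n =>
    (hu n n (n + 1) le_rfl (Nat.le_succ n)).le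
  set T : ℕ → Set Ω := fun n => ⋃ k, D (n + k) with hT
  have hTm : ∀ n, MeasurableSet (T n) := fun n =>
    MeasurableSet.iUnion fun k => (u _).meas.symmDiff (u _).meas
  have hTn : ∀ n ω, ω ∉ T n → ∀ k, (ω ∈ (u (n + k)).set ↔ ω ∈ (u n).set) := by
    intro n ω hω k
    induction k with
    | zero => rfl
    | succ k ih =>
      have : ω ∉ D (n + k) := fun h => hω (mem_iUnion.2 ⟨k, h⟩)
      simp only [hD, mem_symmDiff] at this
      rw [← add_assoc, ← ih]
      tauto
  have hTT : ∀ n m ω, ω ∉ T n → ω ∉ T m → (ω ∈ (u n).set ↔ ω ∈ (u m).set) := by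
    intro n m ω hn hm
    rcases le_total n m with h | h
    · obtain ⟨k, rfl⟩ := Nat.exists_eq_add_of_le h
      exact (hTn n ω hn k).symm
    · obtain ⟨k, rfl⟩ := Nat.exists_eq_add_of_le h
      exact hTn m ω hm k
  let E : Ev μ := ⟨⋃ n, (T n)ᶜ ∩ (u n).set,
    MeasurableSet.iUnion fun n => (hTm n).compl.inter (u n).meas⟩
  have hE : ∀ n ω, ω ∉ T n → (ω ∈ E.set ↔ ω ∈ (u n).set) := by
    intro n ω hn
    simp only [E, mem_iUnion, mem_inter_iff, mem_compl_iff]
    constructor
    · rintro ⟨k, hk, h⟩
      exact (hTT k n ω hk hn).1 h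
    · intro h
      exact ⟨n, hn, h⟩
  refine ⟨E, ?_⟩
  rw [tendsto_iff_dist_tendsto_zero]
  refine squeeze_zero (fun _ => dist_nonneg) (g := fun n => 2 * (1 / 2 : ℝ) ^ n) (fun n => ?_) ?_
  · refine le_trans (measureReal_mono ?_) (tail_le D hD1 n)
    intro ω hω
    by_contra h
    have := hE n ω h
    rw [mem_symmDiff] at hω
    tauto
  · have := (tendsto_pow_atTop_nhds_zero_of_lt_one (r := (1 / 2 : ℝ)) (by norm_num)
      (by norm_num)).const_mul 2
    simpa using this

end Typical


section TypicalStructure

variable {Ω : Type} [MeasurableSpace Ω] {μ : Measure Ω} {M : Type}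

/-- The event `⟦φ(f)⟧ = {ω : M ⊨ φ(f(ω))}`. -/
def event {L : FirstOrder.Language.{0, 0}} [L.Structure M] {n : ℕ} (φ : L.Formula (Fin n))
    (f : Fin n → RVar μ M) : Ev μ :=
  ⟨{ω | φ.Realize fun i => (f i).toFun ω}, measurableSet_rvar f _⟩

/-- Intersection of events. -/
def Ev.inf (E F : Ev μ) : Ev μ := ⟨E.set ∩ F.set, E.meas.inter F.meas⟩

/-- Union of events. -/
def Ev.sup (E F : Ev μ) : Ev μ := ⟨E.set ∪ F.set, E.meas.union F.meas⟩

/-- Complement of an event. -/
def Ev.compl (E : Ev μ) : Ev μ := ⟨E.setᶜ, E.meas.compl⟩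

theorem event_lip {L : FirstOrder.Language.{0, 0}} [L.Structure M] [IsFiniteMeasure μ] {n : ℕ}
    (φ : L.Formula (Fin n)) (f g : Fin n → RVar μ M) :
    dist (event φ f) (event φ g) ≤ ∑ i, dist (f i) (g i) := by
  rw [Ev.dist_def]
  refine (measureReal_mono (s₂ := ⋃ i, {ω | (f i).toFun ω ≠ (g i).toFun ω}) ?_).trans
    (measureReal_iUnion_fintype_le _)
  intro ω hω
  by_contra h
  simp only [mem_iUnion, mem_ofPred_eq, not_exists, not_not] at h
  have : (fun i => (f i).toFun ω) = fun i => (g i).toFun ω := funext h
  simp only [event, mem_symmDiff, mem_ofPred_eq, this] at hω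
  tauto

theorem Ev.inf_lip [IsFiniteMeasure μ] (E F E' F' : Ev μ) :
    dist (E.inf F) (E'.inf F') ≤ dist E E' + dist F F' := by
  refine (measureReal_mono ?_).trans (measureReal_union_le (symmDiff E.set E'.set)
    (symmDiff F.set F'.set))
  intro ω hω
  simp only [Ev.inf, mem_symmDiff, mem_inter_iff, mem_union] at hω ⊢
  tauto

theorem Ev.sup_lip [IsFiniteMeasure μ] (E F E' F' : Ev μ) :
    dist (E.sup F) (E'.sup F') ≤ dist E E' + dist F F' := by
  refine (measureReal_mono ?_).trans (measureReal_union_le (symmDiff E.set E'.set)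
    (symmDiff F.set F'.set))
  intro ω hω
  simp only [Ev.sup, mem_symmDiff, mem_union] at hω ⊢
  tauto

theorem Ev.compl_lip [IsFiniteMeasure μ] (E F : Ev μ) :
    dist E.compl F.compl ≤ dist E F := by
  refine measureReal_mono ?_
  intro ω hω
  simp only [Ev.compl, mem_symmDiff, mem_compl_iff] at hω ⊢
  tauto

/-- The measure of an event, in `[0,1]`. -/
noncomputable def Ev.prob [IsProbabilityMeasure μ] (E : Ev μ) : I :=
  ⟨μ.real E.set, measureReal_nonneg, measureReal_le_one⟩

theorem Ev.prob_lip [IsProbabilityMeasure μ] (E F : Ev μ) : dist E.prob F.prob ≤ dist E F :=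
  abs_measureReal_sub_le_measureReal_symmDiff E.meas.nullMeasurableSet F.meas.nullMeasurableSet

/-- A representative. -/
noncomputable def rep {X : Type} [PseudoMetricSpace X] (x : SeparationQuotient X) : X :=
  (SeparationQuotient.surjective_mk x).choose

theorem mk_rep {X : Type} [PseudoMetricSpace X] (x : SeparationQuotient X) :
    SeparationQuotient.mk (rep x) = x := (SeparationQuotient.surjective_mk x).choose_spec

theorem dist_rep {X : Type} [PseudoMetricSpace X] (x y : SeparationQuotient X) :
    dist (rep x) (rep y) = dist x y := by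
  rw [← SeparationQuotient.dist_mk, mk_rep, mk_rep]

theorem dist_rep_mk {X : Type} [PseudoMetricSpace X] (x : X) :
    dist (rep (SeparationQuotient.mk x)) x = 0 := by
  rw [← SeparationQuotient.dist_mk, mk_rep, dist_self]

/-- The typical model of the randomization of `Th(M)` built from `M` and the probability space
`(Ω, μ)`: random elements are the measurable maps `Ω → M` with countable range modulo null sets
(the quotient of `RVar μ M` by the relation of being at distance `μ{f ≠ g} = 0`), events are the
measurable sets modulo null sets, `⟦φ(f)⟧ = {ω : M ⊨ φ(f(ω))}`, and the metrics are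
`μ{f ≠ g}` and `μ(E △ F)`. -/
noncomputable def typical (L : FirstOrder.Language.{0, 0}) (M : Type) [L.Structure M]
    {Ω : Type} [MeasurableSpace Ω] (μ : Measure Ω) [IsProbabilityMeasure μ] : RStr L where
  K := SeparationQuotient (RVar μ M)
  B := SeparationQuotient (Ev μ)
  distK_le := SeparationQuotient.surjective_mk.forall₂.2 fun f g => by
    rw [SeparationQuotient.dist_mk]; exact measureReal_le_one
  distB_le := SeparationQuotient.surjective_mk.forall₂.2 fun f g => by
    rw [SeparationQuotient.dist_mk]; exact measureReal_le_one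
  br φ f := SeparationQuotient.mk (event φ fun i => rep (f i))
  top := SeparationQuotient.mk ⟨univ, MeasurableSet.univ⟩
  bot := SeparationQuotient.mk ⟨∅, MeasurableSet.empty⟩
  inf E F := SeparationQuotient.mk ((rep E).inf (rep F))
  sup E F := SeparationQuotient.mk ((rep E).sup (rep F))
  compl E := SeparationQuotient.mk (rep E).compl
  mu E := (rep E).prob
  br_lip φ f g := by
    rw [SeparationQuotient.dist_mk]
    refine (event_lip φ _ _).trans (le_of_eq ?_)
    simp only [dist_rep]
  inf_lip E F E' F' := by
    rw [SeparationQuotient.dist_mk]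
    refine (Ev.inf_lip _ _ _ _).trans (le_of_eq ?_)
    simp only [dist_rep]
  sup_lip E F E' F' := by
    rw [SeparationQuotient.dist_mk]
    refine (Ev.sup_lip _ _ _ _).trans (le_of_eq ?_)
    simp only [dist_rep]
  compl_lip E F := by
    rw [SeparationQuotient.dist_mk]
    refine (Ev.compl_lip _ _).trans (le_of_eq ?_)
    simp only [dist_rep]
  mu_lip E F := by
    refine (Ev.prob_lip _ _).trans (le_of_eq ?_)
    simp only [dist_rep]

/-- `(Ω, μ)` is atomless: every measurable set of positive measure has a measurable subset of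
strictly smaller positive measure. -/
def Atomless {Ω : Type} [MeasurableSpace Ω] (μ : Measure Ω) : Prop :=
  ∀ s, MeasurableSet s → 0 < μ s → ∃ t ⊆ s, MeasurableSet t ∧ 0 < μ t ∧ μ t < μ s

/-- The randomization `T^R` of `T`: the set of all sentences `s` of continuous logic for which
the condition `s = 0` holds in every typical model, that is, in the model built from any
model `M` of `T` and any atomless probability space. -/
def randomization {L : FirstOrder.Language.{0, 0}} (T : L.Theory) : Set (CSentence L) :=
  {s | ∀ (M : Type) [L.Structure M] [Nonempty M] [M ⊨ T] (Ω : Type) [MeasurableSpace Ω]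
    (μ : Measure Ω) [IsProbabilityMeasure μ], Atomless μ → CSentence.val (typical L M μ) s = 0}

end TypicalStructure

/-! ### Types -/

section Types

variable {L : FirstOrder.Language.{0, 0}}

/-- Density character at most `κ`. -/
def DensityLE {X : Type} [TopologicalSpace X] (s : Set X) (κ : Cardinal.{0}) : Prop :=
  ∃ D ⊆ s, #D ≤ κ ∧ s ⊆ closure D

/-- A model of the theory of `N` with names for the elements of `A = (AK, AB)`. -/
structure ModelOver (N : RStr L) (AK : Set N.K) (AB : Set N.B) where
  P : RStr L
  iK : AK → P.K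
  iB : AB → P.B
  elem : ∀ s : CFormula L AK AB 0 0,
    s.eval P iK iB (fun i => i.elim0) (fun i => i.elim0) =
      s.eval N Subtype.val Subtype.val (fun i => i.elim0) (fun i => i.elim0)

/-- The type over `A` of the tuple `(x, y)` in a model of `Th(N_A)`: the function giving the
value of each formula with parameters in `A` at `(x, y)`. -/
noncomputable def ModelOver.tp {N : RStr L} {AK : Set N.K} {AB : Set N.B}
    (Q : ModelOver N AK AB) {n m : ℕ} (x : Fin n → Q.P.K) (y : Fin m → Q.P.B) :
    CFormula L AK AB n m → I :=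
  fun φ => φ.eval Q.P Q.iK Q.iB x y

/-- The space `S_{n,m}(A)` of types over `A` of tuples of `n` random elements and `m` events. -/
def TypeSpace (N : RStr L) (AK : Set N.K) (AB : Set N.B) (n m : ℕ) :
    Set (CFormula L AK AB n m → I) :=
  {p | ∃ (Q : ModelOver N AK AB) (x : Fin n → Q.P.K) (y : Fin m → Q.P.B), Q.tp x y = p}

/-- The distance `d(p, q) = inf {d(a, b) : a ⊨ p, b ⊨ q}` between types over `A`, the infimum being
over all pairs of tuples `a = (x, y)`, `b = (x', y')` of a common model of `Th(N_A)`. -/
noncomputable def typeDist {N : RStr L} {AK : Set N.K} {AB : Set N.B} {n m : ℕ}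
    (p q : CFormula L AK AB n m → I) : ENNReal :=
  ⨅ (Q : ModelOver N AK AB) (x : Fin n → Q.P.K) (y : Fin m → Q.P.B) (x' : Fin n → Q.P.K)
    (y' : Fin m → Q.P.B) (_ : Q.tp x y = p) (_ : Q.tp x' y' = q), edist (x, y) (x', y')

/-- The continuous theory `S` is `κ`-stable: for every model `N` of `S` and every set `A` of
density character at most `κ` in `N`, every type space over `A` has density character at most `κ`
for the distance `d`. -/
def CStable (S : Set (CSentence L)) (κ : Cardinal.{0}) : Prop :=
  ∀ N : RStr L, N.Models S → ∀ (AK : Set N.K) (AB : Set N.B), DensityLE AK κ → DensityLE AB κ →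
    ∀ n m : ℕ, ∃ D ⊆ TypeSpace N AK AB n m, #D ≤ κ ∧
      ∀ p ∈ TypeSpace N AK AB n m, ∀ ε > 0, ∃ q ∈ D, typeDist p q < ε

end Types

end Pool.Agent.Results.MP_eefa83_lc.NotPreserved
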