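import Pool.Agent.RandEefa83.Proof

open FirstOrder Cardinal MeasureTheory Set
open scoped unitInterval Topology

namespace Pool.Agent.Results.MP_eefa83_lc.NotPreserved

section Tree

open FirstOrder.Language

/-- A set which is not countable is split into two sets which are not countable by one of
countably many sets separating the points. -/
theorem exists_split {X F : Type} [Countable F] (S : F → Set X)
    (hS : ∀ p q : X, (∀ f, p ∈ S f ↔ q ∈ S f) → p = q) (Y : Set X) (hY : ¬ Y.Countable) :
    ∃ f, ¬ (Y ∩ S f).Countable ∧ ¬ (Y \ S f).Countable := by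
  by_contra hcon
  have h0 : ∀ f, ∃ C : Set X, C.Countable ∧ (C = Y ∩ S f ∨ C = Y \ S f) := by
    intro f
    by_cases h : (Y ∩ S f).Countable
    · exact ⟨_, h, Or.inl rfl⟩
    · by_cases h' : (Y \ S f).Countable
      · exact ⟨_, h', Or.inr rfl⟩
      · exact absurd ⟨f, h, h'⟩ hcon
  choose C hC hC' using h0
  apply hY
  have h1 : (Y \ ⋃ f, C f).Subsingleton := by
    rintro p ⟨hp, hpZ⟩ q ⟨hq, hqZ⟩
    apply hS
    intro f
    have hpf : p ∉ C f := fun h => hpZ (mem_iUnion.2 ⟨f, h⟩)
    have hqf : q ∉ C f := fun h => hqZ (mem_iUnion.2 ⟨f, h⟩)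
    rcases hC' f with e | e
    · rw [e] at hpf hqf
      exact iff_of_false (fun h => hpf ⟨hp, h⟩) (fun h => hqf ⟨hq, h⟩)
    · rw [e] at hpf hqf
      refine iff_of_true ?_ ?_
      · by_contra h
        exact hpf ⟨hp, h⟩
      · by_contra h
        exact hqf ⟨hq, h⟩
  refine ((Set.countable_iUnion hC).union h1.countable).mono ?_
  intro p hp
  by_cases h : p ∈ ⋃ f, C f
  · exact Or.inl h
  · exact Or.inr ⟨hp, h⟩

variable {L' : FirstOrder.Language.{0, 0}} {T' : L'.Theory} {n : ℕ}

/-- The types containing a formula. -/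
def ts (T' : L'.Theory) {n : ℕ} (φ : L'.Formula (Fin n)) : Set (T'.CompleteType (Fin n)) :=
  {p | Formula.equivSentence φ ∈ p}

theorem exists_real (p : T'.CompleteType (Fin n)) :
    ∃ (M₁ : Type) (_ : L'.Structure M₁) (_ : Nonempty M₁) (_ : M₁ ⊨ T') (v : Fin n → M₁),
      ∀ φ : L'.Formula (Fin n), p ∈ ts T' φ ↔ φ.Realize v := by
  obtain ⟨M₁, v, rfl⟩ := Theory.exists_modelType_is_realized_in _ p
  exact ⟨M₁, inferInstance, inferInstance, M₁.is_model, v, fun φ =>
    Theory.CompleteType.formula_mem_typeOf (T := T') (v := v)⟩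

theorem ts_inf (φ ψ : L'.Formula (Fin n)) : ts T' (φ ⊓ ψ) = ts T' φ ∩ ts T' ψ := by
  ext p
  obtain ⟨M₁, _, _, _, v, hv⟩ := exists_real p
  rw [mem_inter_iff, hv, hv, hv, Formula.realize_inf]

theorem ts_not (φ ψ : L'.Formula (Fin n)) : ts T' (φ ⊓ ψ.not) = ts T' φ \ ts T' ψ := by
  ext p
  obtain ⟨M₁, _, _, _, v, hv⟩ := exists_real p
  rw [mem_sdiff, hv, hv, hv, Formula.realize_inf, Formula.realize_not]

theorem ts_sep [Countable L'.Symbols] (φ : L'.Formula (Fin n)) (h : ¬ (ts T' φ).Countable) :
    ∃ ψ : L'.Formula (Fin n), ¬ (ts T' (φ ⊓ ψ)).Countable ∧ ¬ (ts T' (φ ⊓ ψ.not)).Countable := by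
  obtain ⟨ψ, h1, h2⟩ := exists_split (F := L'.Formula (Fin n)) (ts T') (by
    intro p q hpq
    refine SetLike.ext fun χ => ?_
    have := hpq (Formula.equivSentence.symm χ)
    unfold ts at this
    simpa using this) (ts T' φ) h
  exact ⟨ψ, by rw [ts_inf]; exact h1, by rw [ts_not]; exact h2⟩

/-- Large formulas. -/
abbrev Large (T' : L'.Theory) (n : ℕ) : Type :=
  {φ : L'.Formula (Fin n) // ¬ (ts T' φ).Countable}

/-- The formula splitting a large formula. -/
noncomputable def spl [Countable L'.Symbols] (x : Large T' n) : L'.Formula (Fin n) :=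
  (ts_sep x.1 x.2).choose

/-- The tree of large formulas. -/
noncomputable def node [Countable L'.Symbols] (x₀ : Large T' n) : List Bool → Large T' n
  | [] => x₀
  | true :: w => ⟨(node x₀ w).1 ⊓ spl (node x₀ w), (ts_sep _ (node x₀ w).2).choose_spec.1⟩
  | false :: w => ⟨(node x₀ w).1 ⊓ (spl (node x₀ w)).not,
      (ts_sep _ (node x₀ w).2).choose_spec.2⟩

variable [Countable L'.Symbols] {x₀ : Large T' n} {M : Type} [L'.Structure M]

theorem node_mono (b : Bool) (w : List Bool) (v : Fin n → M)
    (h : (node x₀ (b :: w)).1.Realize v) : (node x₀ w).1.Realize v := by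
  cases b
  · exact (Formula.realize_inf.1 h).1
  · exact (Formula.realize_inf.1 h).1

theorem node_disj : ∀ (w u : List Bool) (_ : w.length = u.length) (v : Fin n → M)
    (_ : (node x₀ w).1.Realize v) (_ : (node x₀ u).1.Realize v), w = u := by
  intro w
  induction w with
  | nil =>
    intro u hl v _ _
    exact (List.length_eq_zero_iff.1 hl.symm).symm
  | cons b w ih =>
    intro u hl v h1 h2
    cases u with
    | nil => exact absurd hl (by simp)
    | cons c u =>
      have e : w = u := ih u (by simpa using hl) v (node_mono b w v h1) (node_mono c u v h2)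
      subst e
      cases b <;> cases c
      · rfl
      · exact absurd (Formula.realize_inf.1 h2).2 (Formula.realize_not.1 (Formula.realize_inf.1 h1).2)
      · exact absurd (Formula.realize_inf.1 h1).2 (Formula.realize_not.1 (Formula.realize_inf.1 h2).2)
      · rfl

/-- The formula: the bit of level `j` is `1`. -/
noncomputable def lev (x₀ : Large T' n) (j : ℕ) : L'.Formula (Fin n) :=
  BoundedFormula.iSup fun f : Fin j → Bool => (node x₀ (true :: List.ofFn f)).1

theorem realize_lev (j : ℕ) (v : Fin n → M) : (lev x₀ j).Realize v ↔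
    ∃ f : Fin j → Bool, (node x₀ (true :: List.ofFn f)).1.Realize v := by
  unfold lev Formula.Realize
  rw [BoundedFormula.realize_iSup]

theorem lev_iff (b : Bool) (w : List Bool) (v : Fin n → M)
    (h : (node x₀ (b :: w)).1.Realize v) : (lev x₀ w.length).Realize v ↔ b = true := by
  rw [realize_lev]
  constructor
  · rintro ⟨f, hf⟩
    have := node_disj _ _ (by simp) v h hf
    exact (List.cons.inj this).1
  · intro hb
    refine ⟨fun i => w.get i, ?_⟩
    rw [List.ofFn_get, ← hb]
    exact h

omit [Countable L'.Symbols] in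
theorem real_in (M : Type) [L'.Structure M] [Nonempty M] (φ : L'.Formula (Fin n))
    (h : (ts (L'.completeTheory M) φ).Nonempty) : ∃ v : Fin n → M, φ.Realize v := by
  obtain ⟨p, hp⟩ := h
  obtain ⟨M₁, _, _, _, v, hv⟩ := exists_real p
  let χ : L'.Sentence := Formula.iExs (Fin n) (φ.relabel Sum.inr)
  have key : ∀ (N : Type) [L'.Structure N], N ⊨ χ ↔ ∃ v : Fin n → N, φ.Realize v := by
    intro N _
    unfold χ Sentence.Realize
    rw [Formula.realize_iExs]
    refine exists_congr fun u => ?_
    rw [Formula.realize_relabel]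
    rfl
  have h1 : M₁ ⊨ χ := (key M₁).2 ⟨v, (hv φ).1 hp⟩
  rw [realize_iff_of_model_completeTheory (M := M) (N := M₁)] at h1
  exact (key M).1 h1

omit [Countable L'.Symbols] in
/-- Only finitely many variables occur in a formula. -/
theorem exists_fin {β : Type} (φ : L'.Formula β) :
    ∃ (m : ℕ) (ψ : L'.Formula (Fin m)) (x : Fin m → β), Function.Injective x ∧
      ∀ (M : Type) [L'.Structure M] (v : β → M), ψ.Realize (fun i => v (x i)) ↔ φ.Realize v := by
  classical
  let e := φ.freeVarFinset.equivFin
  refine ⟨φ.freeVarFinset.card, Formula.relabel e (BoundedFormula.restrictFreeVar φ id),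
    fun i => (e.symm i : β), ?_, ?_⟩
  · exact Subtype.val_injective.comp e.symm.injective
  · intro M _ v
    rw [Formula.realize_relabel]
    unfold Formula.Realize
    exact BoundedFormula.realize_restrictFreeVar (φ := φ) (f := id) v (fun a => by simp)

end Tree

section Random

/-- The string of the first `k` coins, the last one first. -/
noncomputable def str {J : Type} (t : ℕ → J) : ℕ → (J → I) → List Bool
  | 0, _ => []
  | k + 1, ω => (open Classical in decide (ω (t k) ∈ Iic half)) :: str t k ω

theorem length_str {J : Type} (t : ℕ → J) (k : ℕ) (ω : J → I) : (str t k ω).length = k := by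
  induction k with
  | zero => rfl
  | succ k ih => rw [str, List.length_cons, ih]

theorem meas_str {J : Type} (t : ℕ → J) (k : ℕ) (w : List Bool) :
    MeasurableSet {ω : J → I | str t k ω = w} := by
  classical
  induction k generalizing w with
  | zero =>
    have : {ω : J → I | str t 0 ω = w} = {_ω : J → I | ([] : List Bool) = w} := rfl
    rw [this]
    exact MeasurableSet.const _
  | succ k ih =>
    cases w with
    | nil =>
      have : {ω : J → I | str t (k + 1) ω = []} = ∅ := by
        ext ω
        simp [str]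
      rw [this]
      exact MeasurableSet.empty
    | cons b w =>
      have hm : MeasurableSet {ω : J → I | ω (t k) ∈ Iic half} :=
        measurable_pi_apply (t k) measurableSet_Iic
      have hb : MeasurableSet {ω : J → I | decide (ω (t k) ∈ Iic half) = b} := by
        cases b
        · have : {ω : J → I | decide (ω (t k) ∈ Iic half) = false} =
              {ω : J → I | ω (t k) ∈ Iic half}ᶜ := by
            ext ω
            simp only [mem_ofPred_eq, decide_eq_false_iff_not, mem_compl_iff]
          rw [this]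
          exact hm.compl
        · simpa only [decide_eq_true_eq] using hm
      have : {ω : J → I | str t (k + 1) ω = b :: w} =
          {ω : J → I | decide (ω (t k) ∈ Iic half) = b} ∩ {ω : J → I | str t k ω = w} := by
        ext ω
        rw [mem_inter_iff, mem_ofPred_eq, mem_ofPred_eq, mem_ofPred_eq, str, List.cons.injEq]
      rw [this]
      exact hb.inter (ih w)

/-- The random element depending on the first `k` coins. -/
noncomputable def rstr {J M : Type} (t : ℕ → J) (k : ℕ) (W : List Bool → M) :
    RVar (prodMeas J) M where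
  toFun ω := W (str t k ω)
  meas m := by
    have : (fun ω : J → I => W (str t k ω)) ⁻¹' {m} =
        ⋃ w ∈ {w : List Bool | W w = m}, {ω : J → I | str t k ω = w} := by
      ext ω
      simp only [mem_preimage, mem_singleton_iff, mem_ofPred_eq, mem_iUnion, exists_prop]
      constructor
      · intro h
        exact ⟨_, h, rfl⟩
      · rintro ⟨w, h, e⟩
        rw [e, h]
    rw [this]
    exact MeasurableSet.biUnion (Set.to_countable _) fun w _ => meas_str t k w
  countable_range := (Set.countable_range W).mono (by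
    rintro _ ⟨ω, rfl⟩
    exact mem_range_self _)

/-- The constant random elements. -/
def cst {J M : Type} (a : M) : RVar (prodMeas J) M where
  toFun _ := a
  meas m := by
    have : (fun _ : J → I => a) ⁻¹' {m} = {ω | a = m} := by
      ext ω
      simp
    rw [this]
    exact MeasurableSet.const _
  countable_range := (Set.countable_singleton a).mono (by
    rintro _ ⟨ω, rfl⟩
    rfl)

open FirstOrder.Language in
theorem node_str {L' : FirstOrder.Language.{0, 0}} {T' : L'.Theory} {n : ℕ}
    [Countable L'.Symbols] {x₀ : Large T' n} {M : Type} [L'.Structure M] {J : Type}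
    (t : ℕ → J) (ω : J → I) {j k : ℕ} (hjk : j ≤ k) (v : Fin n → M)
    (h : (node x₀ (str t k ω)).1.Realize v) : (node x₀ (str t j ω)).1.Realize v := by
  induction k with
  | zero => rwa [Nat.le_zero.1 hjk]
  | succ k ih =>
    rcases Nat.lt_or_ge j (k + 1) with h1 | h1
    · exact ih (by omega) (node_mono _ _ v h)
    · rwa [le_antisymm hjk h1]

open FirstOrder.Language in
theorem lev_str {L' : FirstOrder.Language.{0, 0}} {T' : L'.Theory} {n : ℕ}
    [Countable L'.Symbols] {x₀ : Large T' n} {M : Type} [L'.Structure M] {J : Type}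
    (t : ℕ → J) (ω : J → I) {j k : ℕ} (hjk : j < k) (v : Fin n → M)
    (h : (node x₀ (str t k ω)).1.Realize v) :
    (lev x₀ j).Realize v ↔ ω (t j) ∈ Iic half := by
  classical
  have h1 := node_str t ω (j := j + 1) hjk v h
  have h2 := lev_iff _ _ v h1
  rw [length_str] at h2
  rw [h2, decide_eq_true_iff]

end Random

section MainGeneral

open FirstOrder.Language

theorem sum_inj_le {m n : ℕ} {A : Type} (x : Fin m → A ⊕ Fin n) (hx : Function.Injective x)
    (g : A ⊕ Fin n → ℝ) (h0 : ∀ a, g (Sum.inl a) = 0) (h1 : ∀ i, 0 ≤ g (Sum.inr i)) :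
    ∑ l, g (x l) ≤ ∑ i, g (Sum.inr i) := by
  classical
  have e1 : ∑ l, g (x l) = ∑ y ∈ Finset.univ.image x, g y :=
    (Finset.sum_image (fun a _ b _ h => hx h)).symm
  have e2 : ∑ i : Fin n, g (Sum.inr i) =
      ∑ y ∈ Finset.univ.image (Sum.inr : Fin n → A ⊕ Fin n), g y :=
    (Finset.sum_image (fun a _ b _ h => Sum.inr_injective h)).symm
  rw [e1, e2]
  have e3 : ∑ y ∈ Finset.univ.image x, g y = ∑ y ∈ (Finset.univ.image x).filter
      (fun y => y ∈ Finset.univ.image (Sum.inr : Fin n → A ⊕ Fin n)), g y := by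
    refine (Finset.sum_filter_of_ne fun y _ hy => ?_).symm
    rcases y with a | i
    · exact absurd (h0 a) hy
    · exact Finset.mem_image_of_mem _ (Finset.mem_univ i)
  rw [e3]
  refine Finset.sum_le_sum_of_subset_of_nonneg (fun y hy => (Finset.mem_filter.1 hy).2)
    fun y hy _ => ?_
  obtain ⟨i, -, rfl⟩ := Finset.mem_image.1 hy
  exact h1 i

variable {L : FirstOrder.Language.{0, 0}}

/-- The formula `d(⟦ψ(x, a)⟧, c)`, where `a` are parameters of the sort of random elements and `c`
is a parameter of the sort of events. -/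
def psiG {N : RStr L} {AK : Set N.K} {AB : Set N.B} {A : Type} {n m : ℕ} (pa : A → AK)
    (ψ : L.Formula (Fin m)) (x : Fin m → A ⊕ Fin n) (c : AB) : CFormula L AK AB n 0 :=
  CFormula.dB (ETerm.br ψ (fun l => Sum.map pa id (x l))) (ETerm.var (Sum.inl c))

theorem tp_psiG {N : RStr L} {AK : Set N.K} {AB : Set N.B} {A : Type} {n m : ℕ} (pa : A → AK)
    (ψ : L.Formula (Fin m)) (x : Fin m → A ⊕ Fin n) (c : AB) (Q : ModelOver N AK AB)
    (u : Fin n → Q.P.K) (y : Fin 0 → Q.P.B) :
    (Q.tp u y (psiG pa ψ x c) : ℝ) =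
      dist (Q.P.br ψ (fun l => Sum.elim (fun a => Q.iK (pa a)) u (x l))) (Q.iB c) := by
  have h : (fun l => Sum.elim (fun a => Q.iK (pa a)) u (x l)) =
      Sum.elim Q.iK u ∘ (fun l => Sum.map pa id (x l)) := by
    funext l
    rw [Function.comp_apply]
    rcases x l with a | i <;> rfl
  rw [h]
  rfl

/-- The sentence `d(c, c')` where `c`, `c'` are parameters. -/
def thetaG {N : RStr L} {AK : Set N.K} {AB : Set N.B} (c c' : AB) : CFormula L AK AB 0 0 :=
  CFormula.dB (ETerm.var (Sum.inl c)) (ETerm.var (Sum.inl c'))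

theorem dist_iBG {N : RStr L} {AK : Set N.K} {AB : Set N.B} (Q : ModelOver N AK AB)
    (c c' : AB) : dist (Q.iB c) (Q.iB c') = dist (c : N.B) (c' : N.B) :=
  congrArg Subtype.val (Q.elem (thetaG c c'))

/-- The ultrapower as a model over `A`. -/
noncomputable def ultraOver (N : RStr L) (AK : Set N.K) (AB : Set N.B) : ModelOver N AK AB where
  P := ultra N
  iK := fun a => mkK N ⟨fun _ => a⟩
  iB := fun b => mkB N ⟨fun _ => b⟩
  elem := by
    intro s
    have := los N (fun a : AK => (⟨fun _ => a⟩ : UP N.K)) (fun b : AB => (⟨fun _ => b⟩ : UP N.B))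
      s (fun i => i.elim0) (fun i => i.elim0)
    have e1 : (fun i : Fin 0 => mkK N (i.elim0)) = fun i => i.elim0 := Subsingleton.elim _ _
    have e2 : (fun i : Fin 0 => mkB N (i.elim0)) = fun i => i.elim0 := Subsingleton.elim _ _
    rw [e1, e2] at this
    rw [this, ← ulim_const (CFormula.eval N _ _ s _ _)]
    congr 1
    funext k
    congr 1 <;> exact Subsingleton.elim _ _

theorem event_lev [Countable L.Symbols] {M : Type} [L.Structure M] [Nonempty M] {A : Set M}
    [Countable A] {n m : ℕ} {x₀ : Large (L[[A]].completeTheory M) n}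
    {W : List Bool → Fin n → M} (hW : ∀ w, (node x₀ w).1.Realize (W w)) {j : ℕ}
    {ψ : L.Formula (Fin m)} {x : Fin m → A ⊕ Fin n}
    (hψ : ∀ v : Fin n → M, ψ.Realize (fun l => Sum.elim (fun a : A => (a : M)) v (x l)) ↔
      (lev x₀ j).Realize v) {J : Type} (t : ℕ → J) {k : ℕ} (hjk : j < k) :
    event ψ (fun l => Sum.elim (fun a : A => (cst (a : M) : RVar (prodMeas J) M))
      (fun i => rstr t k (fun w => W w i)) (x l)) = coin J (t j) := by
  unfold event coin
  congr 1
  ext ω
  rw [mem_ofPred_eq, mem_ofPred_eq]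
  have e : (fun l => (Sum.elim (fun a : A => (cst (a : M) : RVar (prodMeas J) M))
      (fun i => rstr t k (fun w => W w i)) (x l)).toFun ω) =
      fun l => Sum.elim (fun a : A => (a : M)) (W (str t k ω)) (x l) := by
    funext l
    rcases x l with a | i <;> rfl
  rw [e, hψ]
  exact lev_str t ω hjk _ (hW _)

theorem not_cstable_of_uncountable {T : L.Theory} [Countable L.Symbols] (M : Type)
    [L.Structure M] [Nonempty M] [M ⊨ T] (A : Set M) [Countable A] (n : ℕ)
    (hbig : ¬ (Set.univ : Set ((L[[A]].completeTheory M).CompleteType (Fin n))).Countable)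
    {κ : Cardinal.{0}} (h0 : ℵ₀ ≤ κ) (hκ : κ < κ ^ ℵ₀) : ¬ CStable (randomization T) κ := by
  classical
  intro H
  -- the tree
  have htop : ts (L[[A]].completeTheory M) (⊤ : L[[A]].Formula (Fin n)) = Set.univ := by
    ext p
    obtain ⟨M₁, _, _, _, v, hv⟩ := exists_real p
    rw [hv]
    simp
  let x₀ : Large (L[[A]].completeTheory M) n := ⟨⊤, by rw [htop]; exact hbig⟩
  have hW : ∀ w, ∃ v : Fin n → M, (node x₀ w).1.Realize v := fun w => real_in M _ (by
    by_contra h
    rw [Set.not_nonempty_iff_eq_empty] at h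
    exact (node x₀ w).2 (by rw [h]; exact Set.countable_empty))
  choose W hW using hW
  have hφ : ∀ j, ∃ (m : ℕ) (ψ : L.Formula (Fin m)) (x : Fin m → A ⊕ Fin n),
      Function.Injective x ∧ ∀ v : Fin n → M,
        ψ.Realize (fun l => Sum.elim (fun a : A => (a : M)) v (x l)) ↔ (lev x₀ j).Realize v := by
    intro j
    obtain ⟨m, ψ, x, hx, h⟩ := exists_fin (L' := L) (BoundedFormula.constantsVarsEquiv (lev x₀ j))
    refine ⟨m, ψ, x, hx, fun v => ?_⟩
    rw [h M (Sum.elim (fun a : A => (a : M)) v)]
    exact BoundedFormula.realize_constantsVarsEquiv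
  choose m ψ x hx hψ using hφ
  -- index set of size `κ`
  let α : Type := κ.out
  have hα : #α = κ := Cardinal.mk_out κ
  have : Infinite α := Cardinal.infinite_iff.2 (hα.symm ▸ h0)
  let J : Type := List α
  have hJ : #J = κ := by rw [← hα]; exact Cardinal.mk_list_eq_mk α
  let μ : Measure (J → I) := prodMeas J
  let N : RStr L := typical L M μ
  have hN : N.Models (randomization T) := fun s hs =>
    hs M (J → I) μ (atomless_prodMeas J)
  let cN : J → N.B := fun j => SeparationQuotient.mk (coin J j)
  let aN : A → N.K := fun a =>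
    (SeparationQuotient.mk (cst (a : M)) : SeparationQuotient (RVar μ M))
  let AB : Set N.B := range cN
  let AK : Set N.K := range aN
  have hAK : DensityLE AK κ :=
    ⟨AK, Subset.rfl, (Cardinal.mk_range_le.trans (Cardinal.mk_le_aleph0 (α := A))).trans h0,
      subset_closure⟩
  have hAB : DensityLE AB κ :=
    ⟨AB, Subset.rfl, Cardinal.mk_range_le.trans hJ.le, subset_closure⟩
  let c : J → AB := fun j => ⟨cN j, mem_range_self j⟩
  let pa : A → AK := fun a => ⟨aN a, mem_range_self a⟩
  have hc : ∀ i j, i ≠ j → dist (c i : N.B) (c j : N.B) = 1 / 2 := by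
    intro i j hij
    exact (SeparationQuotient.dist_mk _ _).trans (coin_dist hij)
  obtain ⟨D, -, hDκ, hD⟩ := H N hN AK AB hAK hAB n 0
  let Q : ModelOver N AK AB :=
    { P := ultra N
      iK := fun a => mkK N ⟨fun _ => a⟩
      iB := fun b => mkB N ⟨fun _ => b⟩
      elem := (ultraOver N AK AB).elem }
  -- branches
  let pre : (ℕ → α) → ℕ → J := fun s n => List.ofFn fun i : Fin n => s i
  have hpre : ∀ s s', s ≠ s' → ∃ n, pre s n ≠ pre s' n := by
    intro s s' hs
    by_contra hcon
    push Not at hcon
    apply hs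
    funext n
    have h1 := List.ofFn_injective (hcon (n + 1))
    exact congrFun h1 ⟨n, Nat.lt_succ_self n⟩
  let F : (ℕ → α) → Fin n → UP N.K := fun s i =>
    ⟨fun k => (SeparationQuotient.mk (rstr (pre s) k (fun w => W w i)) :
      SeparationQuotient (RVar μ M))⟩
  have hF : ∀ s j, (ultra N).br (ψ j) (fun l => Sum.elim (fun a => Q.iK (pa a))
      (fun i => mkK N (F s i)) (x j l)) = Q.iB (c (pre s j)) := by
    intro s j
    have e1 : (fun l => Sum.elim (fun a => Q.iK (pa a)) (fun i => mkK N (F s i)) (x j l)) =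
        fun l => mkK N (Sum.elim (fun a => (⟨fun _ => aN a⟩ : UP N.K)) (F s) (x j l)) := by
      funext l
      rcases x j l with a | i <;> rfl
    rw [e1, ultra_br]
    refine mk_eq_of_dist_le ?_
    refine UP.dist_le_of_eventually ((eventually_ge_UU (j + 1)).mono fun k hk => ?_)
    have e3 : N.br (ψ j) (fun l =>
        (Sum.elim (fun a => (⟨fun _ => aN a⟩ : UP N.K)) (F s) (x j l)).seq k) = c (pre s j) := by
      have e2 : (fun l => (Sum.elim (fun a => (⟨fun _ => aN a⟩ : UP N.K)) (F s) (x j l)).seq k) =
          fun l => (SeparationQuotient.mk (Sum.elim (fun a : A => (cst (a : M) : RVar μ M))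
            (fun i => rstr (pre s) k (fun w => W w i)) (x j l)) :
              SeparationQuotient (RVar μ M)) := by
        funext l
        rcases x j l with a | i <;> rfl
      rw [e2]
      refine (typical_br_mk μ (ψ j) _).trans ?_
      rw [event_lev hW (hψ j) (pre s) (by omega)]
    simp only
    rw [e3, dist_self]
  let p : (ℕ → α) → (CFormula L AK AB n 0 → I) := fun s =>
    Q.tp (fun i => mkK N (F s i)) (fun i => i.elim0)
  have hp0 : ∀ s j, (p s (psiG pa (ψ j) (x j) (c (pre s j))) : ℝ) = 0 := by
    intro s j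
    rw [tp_psiG, dist_eq_zero]
    exact hF s j
  have hp : ∀ s, p s ∈ TypeSpace N AK AB n 0 := fun s => ⟨Q, _, _, rfl⟩
  have hnpos : (0 : ℝ) < 4 * (n + 1) := by positivity
  choose q hqD hq using fun s => hD (p s) (hp s) (ENNReal.ofReal (1 / (4 * (n + 1))))
    (ENNReal.ofReal_pos.2 (by positivity))
  -- a type close to `p s` knows `s`
  have hq' : ∀ s j, (q s (psiG pa (ψ j) (x j) (c (pre s j))) : ℝ) < 1 / 4 := by
    intro s j
    have := hq s
    unfold typeDist at this
    simp only [iInf_lt_iff] at this
    obtain ⟨R, u, y, u', y', e, e', hd⟩ := this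
    have h1 : dist (R.P.br (ψ j) (fun l => Sum.elim (fun a => R.iK (pa a)) u (x j l)))
        (R.iB (c (pre s j))) = 0 := by
      rw [← tp_psiG pa (ψ j) (x j) (c (pre s j)) R u y, e, hp0]
    have h3 : dist u' u < 1 / (4 * (n + 1)) := by
      have : edist u u' < ENNReal.ofReal (1 / (4 * (n + 1))) := by
        refine lt_of_le_of_lt ?_ hd
        rw [Prod.edist_eq]
        exact le_max_left _ _
      rw [edist_dist, ENNReal.ofReal_lt_ofReal_iff (by positivity)] at this
      rwa [dist_comm]
    have h2 : dist (R.P.br (ψ j) (fun l => Sum.elim (fun a => R.iK (pa a)) u' (x j l)))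
        (R.P.br (ψ j) (fun l => Sum.elim (fun a => R.iK (pa a)) u (x j l))) ≤
        n * dist u' u := by
      refine (R.P.br_lip _ _ _).trans ?_
      refine (sum_inj_le (x j) (hx j) (fun z => dist (Sum.elim (fun a => R.iK (pa a)) u' z)
        (Sum.elim (fun a => R.iK (pa a)) u z)) (fun a => dist_self _)
        (fun i => dist_nonneg)).trans ?_
      refine (Finset.sum_le_sum (g := fun _ => dist u' u) fun i _ => ?_).trans ?_
      · exact dist_le_pi_dist u' u i
      · rw [Finset.sum_const, Finset.card_univ, Fintype.card_fin, nsmul_eq_mul]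
    have h4 : (n : ℝ) * dist u' u < 1 / 4 := by
      have h5 : (n : ℝ) * dist u' u ≤ (n + 1) * dist u' u := by
        have := dist_nonneg (x := u') (y := u)
        linarith
      have h6 : ((n : ℝ) + 1) * dist u' u < (n + 1) * (1 / (4 * (n + 1))) :=
        mul_lt_mul_of_pos_left h3 (by positivity)
      have h7 : ((n : ℝ) + 1) * (1 / (4 * (n + 1))) = 1 / 4 := by
        field_simp
      linarith
    rw [← e', tp_psiG]
    calc dist (R.P.br (ψ j) (fun l => Sum.elim (fun a => R.iK (pa a)) u' (x j l)))
          (R.iB (c (pre s j)))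
        ≤ dist (R.P.br (ψ j) (fun l => Sum.elim (fun a => R.iK (pa a)) u' (x j l)))
            (R.P.br (ψ j) (fun l => Sum.elim (fun a => R.iK (pa a)) u (x j l))) +
          dist (R.P.br (ψ j) (fun l => Sum.elim (fun a => R.iK (pa a)) u (x j l)))
            (R.iB (c (pre s j))) := dist_triangle _ _ _
      _ < 1 / 4 := by rw [h1, add_zero]; exact h2.trans_lt h4
  have hinj : Function.Injective fun s => (⟨q s, hqD s⟩ : D) := by
    intro s s' hss
    by_contra hne
    have hqq : q s = q s' := congrArg Subtype.val hss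
    obtain ⟨j, hj⟩ := hpre s s' hne
    have a1 := hq' s j
    have a2 := hq' s' j
    rw [← hqq] at a2
    have := hq s
    unfold typeDist at this
    simp only [iInf_lt_iff] at this
    obtain ⟨R, u, y, u', y', e, e', hd⟩ := this
    rw [← e', tp_psiG] at a1 a2
    have h3 := dist_triangle_left (R.iB (c (pre s j))) (R.iB (c (pre s' j)))
      (R.P.br (ψ j) (fun l => Sum.elim (fun a => R.iK (pa a)) u' (x j l)))
    rw [dist_iBG, hc _ _ hj] at h3
    linarith
  have hcard := Cardinal.mk_le_of_injective hinj
  have hcα : #(ℕ → α) = κ ^ ℵ₀ := by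
    rw [← Cardinal.power_def, Cardinal.mk_nat, hα]
  rw [hcα] at hcard
  exact absurd (hcard.trans hDκ) (not_le.2 hκ)

/-- If `T` is not `ω`-stable, then `T^R` is not `κ`-stable for all infinite `κ < κ ^ ω`. -/
theorem not_cstable_of_not_omega_stable {T : L.Theory} (hL : L.card ≤ ℵ₀)
    (hT : ¬ FOStable T ℵ₀) {κ : Cardinal.{0}} (h0 : ℵ₀ ≤ κ) (hκ : κ < κ ^ ℵ₀) :
    ¬ CStable (randomization T) κ := by
  have hLc : Countable L.Symbols := Cardinal.mk_le_aleph0_iff.1 hL
  unfold FOStable at hT
  push Not at hT
  obtain ⟨M, _, _, _, A, hA, n, hn⟩ := hT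
  have : Countable A := Cardinal.mk_le_aleph0_iff.1 hA
  refine not_cstable_of_uncountable M A n ?_ h0 hκ
  intro hc
  have : Countable ((L[[A]].completeTheory M).CompleteType (Fin n)) := Set.countable_univ_iff.1 hc
  exact absurd Cardinal.mk_le_aleph0 (not_le.2 hn)

end MainGeneral

section NotOmegaStable

open FirstOrder.Language

/-- A large model of the theory of infinitely many independent unary predicates. -/
structure BigModel : Type where
  fst : ℕ → Bool
  snd : ℕ

instance : Nonempty BigModel := ⟨⟨fun _ => true, 0⟩⟩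

instance bitsBig : bits.Structure BigModel where
  funMap f := f.elim
  RelMap {_} r x := match r, x with
    | .P k, x => (x 0).fst k = true

theorem hasP_big (k : ℕ) (m : BigModel) : HasP BigModel k m ↔ m.fst k = true := Iff.rfl

theorem rich_big : Rich BigModel := by
  intro m k s x
  refine ⟨⟨s, ∑ i, (x i).snd + 1⟩, fun i h => ?_, fun i _ => ?_⟩
  · have h1 : (x i).snd ≤ ∑ i, (x i).snd :=
      Finset.single_le_sum (f := fun i => (x i).snd) (fun _ _ => Nat.zero_le _) (Finset.mem_univ i)
    have h2 : ∑ i, (x i).snd + 1 = (x i).snd := congrArg BigModel.snd h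
    omega
  · exact hasP_big i _

instance : BigModel ⊨ bitsTheory := by
  refine ⟨fun φ hφ => ?_⟩
  have h1 : (ℕ ⊨ φ) := hφ
  unfold Sentence.Realize at h1 ⊢
  refine (realize_iff_of_sim' rich_nat rich_big φ _ _ fun K => ?_).1 h1
  exact ⟨fun c => c.elim, fun c => c.elim⟩

theorem not_fostable_bits : ¬ FOStable bitsTheory ℵ₀ := by
  intro H
  have h := H BigModel ∅ (by simp) 1
  let f : (ℕ → Bool) → ((bits[[(∅ : Set BigModel)]]).completeTheory BigModel).CompleteType (Fin 1) :=
    fun s => Theory.typeOf _ (fun _ => (⟨s, 0⟩ : BigModel))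
  have hf : Function.Injective f := by
    intro s s' hss
    funext k
    have key : ∀ t : ℕ → Bool, Formula.equivSentence
        ((lhomWithConstants bits (∅ : Set BigModel)).onFormula (PP k)) ∈ f t ↔ t k = true := by
      intro t
      rw [Theory.CompleteType.formula_mem_typeOf, LHom.realize_onFormula, realize_PP, hasP_big]
    have h1 := key s
    have h2 := key s'
    rw [hss] at h1
    exact Bool.eq_iff_iff.2 (h1.symm.trans h2)
  have h1 := (Cardinal.mk_le_of_injective hf).trans h
  have h2 : #(ℕ → Bool) = 2 ^ ℵ₀ := by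
    rw [← Cardinal.power_def, Cardinal.mk_nat, Cardinal.mk_bool]
  rw [h2] at h1
  exact absurd h1 (not_le.2 (Cardinal.cantor _))

end NotOmegaStable

end Pool.Agent.Results.MP_eefa83_lc.NotPreserved
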