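import Pool.Agent.RandEefa83.Defs

open FirstOrder Cardinal MeasureTheory Set
open scoped unitInterval Topology

namespace Pool.Agent.Results.MP_eefa83_lc.NotPreserved

section Ultra

open Filter

variable {L : FirstOrder.Language.{0, 0}}

/-- A fixed nonprincipal ultrafilter on `ℕ`. -/
noncomputable abbrev UU : Ultrafilter ℕ := Filter.hyperfilter ℕ

/-- The limit along the ultrafilter. -/
noncomputable def ulim (x : ℕ → I) : I := (UU.map x).lim

theorem tendsto_ulim (x : ℕ → I) : Tendsto x UU (𝓝 (ulim x)) :=
  Ultrafilter.le_nhds_lim (UU.map x)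

theorem ulim_eq {x : ℕ → I} {a : I} (h : Tendsto x UU (𝓝 a)) : ulim x = a :=
  tendsto_nhds_unique (tendsto_ulim x) h

theorem ulim_const (a : I) : ulim (fun _ => a) = a := ulim_eq tendsto_const_nhds

/-- Metric spaces of diameter at most `1`. -/
class Bdd1 (X : Type) [MetricSpace X] : Prop where
  le : ∀ x y : X, dist x y ≤ 1

instance (N : RStr L) : Bdd1 N.K := ⟨N.distK_le⟩

instance (N : RStr L) : Bdd1 N.B := ⟨N.distB_le⟩

/-- Distance with values in `[0,1]`. -/
noncomputable def dI {X : Type} [MetricSpace X] [Bdd1 X] (x y : X) : I :=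
  ⟨dist x y, dist_nonneg, Bdd1.le x y⟩

/-- Sequences. -/
structure UP (X : Type) where
  seq : ℕ → X

variable {X : Type} [MetricSpace X] [Bdd1 X]

noncomputable instance : PseudoMetricSpace (UP X) where
  dist f g := (ulim (fun n => dI (f.seq n) (g.seq n)) : ℝ)
  dist_self f := by
    have : (fun n => dI (f.seq n) (f.seq n)) = fun _ => (0 : I) := by
      funext n
      exact Subtype.ext (dist_self _)
    rw [this, ulim_const]
    rfl
  dist_comm f g := by
    have : (fun n => dI (f.seq n) (g.seq n)) = fun n => dI (g.seq n) (f.seq n) := by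
      funext n
      exact Subtype.ext (dist_comm _ _)
    rw [this]
  dist_triangle f g h := by
    have h1 := (continuous_subtype_val.tendsto _).comp
      (tendsto_ulim fun n => dI (f.seq n) (g.seq n))
    have h2 := (continuous_subtype_val.tendsto _).comp
      (tendsto_ulim fun n => dI (g.seq n) (h.seq n))
    have h3 := (continuous_subtype_val.tendsto _).comp
      (tendsto_ulim fun n => dI (f.seq n) (h.seq n))
    exact le_of_tendsto_of_tendsto' h3 (h1.add h2) fun n => dist_triangle _ _ _

theorem UP.tendsto_dist (f g : UP X) :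
    Tendsto (fun n => dist (f.seq n) (g.seq n)) UU (𝓝 (dist f g)) :=
  (continuous_subtype_val.tendsto _).comp (tendsto_ulim fun n => dI (f.seq n) (g.seq n))

theorem UP.dist_le_of_eventually {f g : UP X} {r : ℝ}
    (h : ∀ᶠ n in UU, dist (f.seq n) (g.seq n) ≤ r) : dist f g ≤ r :=
  le_of_tendsto (UP.tendsto_dist f g) h

theorem eventually_ge_UU (k : ℕ) : ∀ᶠ n in UU, k ≤ n :=
  Filter.Tendsto.eventually (Nat.hyperfilter_le_atTop) (eventually_ge_atTop k)

instance : CompleteSpace (UP X) := by
  refine Metric.complete_of_convergent_controlled_sequences (fun n => (1 / 2) ^ n)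
    (fun n => by positivity) fun u hu => ?_
  classical
  let A : ℕ → ℕ → Prop := fun k n =>
    k ≤ n ∧ ∀ j < k, dist ((u j).seq n) ((u (j + 1)).seq n) < (1 / 2) ^ j
  have hA : ∀ k, ∀ᶠ n in UU, A k n := by
    intro k
    refine (eventually_ge_UU k).and ?_
    have : ∀ j ∈ Finset.range k, ∀ᶠ n in (UU : Filter ℕ),
        dist ((u j).seq n) ((u (j + 1)).seq n) < (1 / 2) ^ j := fun j _ =>
      (UP.tendsto_dist (u j) (u (j + 1))).eventually_lt_const (hu j j (j + 1) le_rfl (Nat.le_succ j))
    filter_upwards [(Filter.eventually_all_finset _).2 this] with n hn j hj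
    exact hn j (Finset.mem_range.2 hj)
  let κ : ℕ → ℕ := fun n => Nat.findGreatest (fun k => A k n) n
  have hκ : ∀ n, A (κ n) n := fun n =>
    Nat.findGreatest_spec (P := fun k => A k n) (Nat.zero_le n)
      ⟨Nat.zero_le n, fun j hj => absurd hj (Nat.not_lt_zero j)⟩
  let g : UP X := ⟨fun n => (u (κ n)).seq n⟩
  have hb : ∀ k n, A k n → dist ((u k).seq n) (g.seq n) ≤ 2 * (1 / 2) ^ k := by
    intro k n hk
    have hkκ : k ≤ κ n := Nat.le_findGreatest hk.1 hk
    have key : ∀ d, k + d ≤ κ n → dist ((u k).seq n) ((u (k + d)).seq n) ≤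
        2 * (1 / 2) ^ k - 2 * (1 / 2) ^ (k + d) := by
      intro d
      induction d with
      | zero => intro _; simp
      | succ d ih =>
        intro hd
        have h1 := ih (by omega)
        have h2 := (hκ n).2 (k + d) (by omega)
        have h3 := dist_triangle ((u k).seq n) ((u (k + d)).seq n) ((u (k + d + 1)).seq n)
        have h4 : (2 : ℝ) * (1 / 2) ^ (k + (d + 1)) = (1 / 2) ^ (k + d) := by
          rw [← add_assoc, pow_succ]; ring
        rw [h4]
        calc _ ≤ _ := h3
          _ ≤ (2 * (1 / 2) ^ k - 2 * (1 / 2) ^ (k + d)) + (1 / 2) ^ (k + d) :=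
            add_le_add h1 h2.le
          _ = _ := by ring
    obtain ⟨d, hd⟩ := Nat.exists_eq_add_of_le hkκ
    have := key d hd.ge
    rw [← hd] at this
    refine this.trans ?_
    have : (0 : ℝ) ≤ 2 * (1 / 2) ^ κ n := by positivity
    linarith
  refine ⟨g, ?_⟩
  rw [tendsto_iff_dist_tendsto_zero]
  refine squeeze_zero (fun _ => dist_nonneg) (g := fun n => 2 * (1 / 2 : ℝ) ^ n) (fun k => ?_) ?_
  · exact UP.dist_le_of_eventually ((hA k).mono fun n hn => hb k n hn)
  · have := (tendsto_pow_atTop_nhds_zero_of_lt_one (r := (1 / 2 : ℝ)) (by norm_num)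
      (by norm_num)).const_mul 2
    simpa using this

theorem UP.dist_le_one (f g : UP X) : dist f g ≤ 1 :=
  UP.dist_le_of_eventually (Eventually.of_forall fun _ => Bdd1.le _ _)

/-- The metric ultrapower. -/
noncomputable def ultra (N : RStr L) : RStr L where
  K := SeparationQuotient (UP N.K)
  B := SeparationQuotient (UP N.B)
  distK_le := SeparationQuotient.surjective_mk.forall₂.2 fun f g => by
    rw [SeparationQuotient.dist_mk]; exact UP.dist_le_one f g
  distB_le := SeparationQuotient.surjective_mk.forall₂.2 fun f g => by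
    rw [SeparationQuotient.dist_mk]; exact UP.dist_le_one f g
  br φ f := SeparationQuotient.mk ⟨fun k => N.br φ fun i => (rep (f i)).seq k⟩
  top := SeparationQuotient.mk ⟨fun _ => N.top⟩
  bot := SeparationQuotient.mk ⟨fun _ => N.bot⟩
  inf E F := SeparationQuotient.mk ⟨fun k => N.inf ((rep E).seq k) ((rep F).seq k)⟩
  sup E F := SeparationQuotient.mk ⟨fun k => N.sup ((rep E).seq k) ((rep F).seq k)⟩
  compl E := SeparationQuotient.mk ⟨fun k => N.compl ((rep E).seq k)⟩
  mu E := ulim fun k => N.mu ((rep E).seq k)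
  br_lip φ f g := by
    rw [SeparationQuotient.dist_mk]
    simp only [← dist_rep]
    exact le_of_tendsto_of_tendsto' (UP.tendsto_dist _ _)
      (tendsto_finsetSum _ fun i _ => UP.tendsto_dist _ _) fun k => N.br_lip φ _ _
  inf_lip E F E' F' := by
    rw [SeparationQuotient.dist_mk]
    simp only [← dist_rep]
    exact le_of_tendsto_of_tendsto' (UP.tendsto_dist _ _)
      ((UP.tendsto_dist _ _).add (UP.tendsto_dist _ _)) fun k => N.inf_lip _ _ _ _
  sup_lip E F E' F' := by
    rw [SeparationQuotient.dist_mk]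
    simp only [← dist_rep]
    exact le_of_tendsto_of_tendsto' (UP.tendsto_dist _ _)
      ((UP.tendsto_dist _ _).add (UP.tendsto_dist _ _)) fun k => N.sup_lip _ _ _ _
  compl_lip E F := by
    rw [SeparationQuotient.dist_mk]
    simp only [← dist_rep]
    exact le_of_tendsto_of_tendsto' (UP.tendsto_dist _ _) (UP.tendsto_dist _ _)
      fun k => N.compl_lip _ _
  mu_lip E F := by
    simp only [← dist_rep]
    exact le_of_tendsto_of_tendsto' ((tendsto_ulim _).dist (tendsto_ulim _))
      (UP.tendsto_dist _ _) fun k => N.mu_lip _ _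

theorem mk_eq_of_dist_le {Y : Type} [PseudoMetricSpace Y] {f g : Y} (h : dist f g ≤ 0) :
    SeparationQuotient.mk f = SeparationQuotient.mk g := by
  rw [← dist_le_zero, SeparationQuotient.dist_mk]
  exact h

/-- The class of a sequence of random elements. -/
noncomputable def mkK (N : RStr L) (f : UP N.K) : (ultra N).K := SeparationQuotient.mk f

/-- The class of a sequence of events. -/
noncomputable def mkB (N : RStr L) (f : UP N.B) : (ultra N).B := SeparationQuotient.mk f

theorem mkK_surj (N : RStr L) (f : (ultra N).K) : ∃ g, mkK N g = f :=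
  SeparationQuotient.surjective_mk f

theorem mkB_surj (N : RStr L) (f : (ultra N).B) : ∃ g, mkB N g = f :=
  SeparationQuotient.surjective_mk f

theorem ultra_br (N : RStr L) {n : ℕ} (φ : L.Formula (Fin n)) (f : Fin n → UP N.K) :
    (ultra N).br φ (fun i => mkK N (f i)) = mkB N ⟨fun k => N.br φ fun i => (f i).seq k⟩ := by
  refine mk_eq_of_dist_le ?_
  refine (le_of_tendsto_of_tendsto' (UP.tendsto_dist _ _)
    (tendsto_finsetSum Finset.univ fun i _ => UP.tendsto_dist
      (rep (SeparationQuotient.mk (f i))) (f i)) fun k => N.br_lip φ _ _).trans ?_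
  simp only [dist_rep_mk, Finset.sum_const_zero, le_refl]

theorem ultra_inf (N : RStr L) (E F : UP N.B) :
    (ultra N).inf (mkB N E) (mkB N F) = mkB N ⟨fun k => N.inf (E.seq k) (F.seq k)⟩ := by
  refine mk_eq_of_dist_le ?_
  refine (le_of_tendsto_of_tendsto' (UP.tendsto_dist _ _)
    ((UP.tendsto_dist (rep (SeparationQuotient.mk E)) E).add
      (UP.tendsto_dist (rep (SeparationQuotient.mk F)) F)) fun k => N.inf_lip _ _ _ _).trans ?_
  simp only [dist_rep_mk, add_zero, le_refl]

theorem ultra_sup (N : RStr L) (E F : UP N.B) :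
    (ultra N).sup (mkB N E) (mkB N F) = mkB N ⟨fun k => N.sup (E.seq k) (F.seq k)⟩ := by
  refine mk_eq_of_dist_le ?_
  refine (le_of_tendsto_of_tendsto' (UP.tendsto_dist _ _)
    ((UP.tendsto_dist (rep (SeparationQuotient.mk E)) E).add
      (UP.tendsto_dist (rep (SeparationQuotient.mk F)) F)) fun k => N.sup_lip _ _ _ _).trans ?_
  simp only [dist_rep_mk, add_zero, le_refl]

theorem ultra_compl (N : RStr L) (E : UP N.B) :
    (ultra N).compl (mkB N E) = mkB N ⟨fun k => N.compl (E.seq k)⟩ := by
  refine mk_eq_of_dist_le ?_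
  refine (le_of_tendsto_of_tendsto' (UP.tendsto_dist _ _)
    (UP.tendsto_dist (rep (SeparationQuotient.mk E)) E) fun k => N.compl_lip _ _).trans ?_
  simp only [dist_rep_mk, le_refl]

theorem ultra_mu (N : RStr L) (E : UP N.B) :
    (ultra N).mu (mkB N E) = ulim fun k => N.mu (E.seq k) := by
  rw [← dist_le_zero]
  refine (le_of_tendsto_of_tendsto' ((tendsto_ulim _).dist (tendsto_ulim _))
    (UP.tendsto_dist (rep (SeparationQuotient.mk E)) E) fun k => N.mu_lip _ _).trans ?_
  simp only [dist_rep_mk, le_refl]

theorem ultra_dK (N : RStr L) (f g : UP N.K) :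
    (ultra N).dK (mkK N f) (mkK N g) = ulim fun k => N.dK (f.seq k) (g.seq k) :=
  Subtype.ext (SeparationQuotient.dist_mk f g)

theorem ultra_dB (N : RStr L) (f g : UP N.B) :
    (ultra N).dB (mkB N f) (mkB N g) = ulim fun k => N.dB (f.seq k) (g.seq k) :=
  Subtype.ext (SeparationQuotient.dist_mk f g)

theorem eval_term_ultra (N : RStr L) {V W : Type} (a : V → UP N.K) (e : W → UP N.B)
    (t : ETerm L V W) :
    t.eval (ultra N) (fun v => mkK N (a v)) (fun w => mkB N (e w)) =
      mkB N ⟨fun k => t.eval N (fun v => (a v).seq k) (fun w => (e w).seq k)⟩ := by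
  induction t with
  | var w => rfl
  | br φ x => exact ultra_br N φ (fun i => a (x i))
  | top => rfl
  | bot => rfl
  | inf s t hs ht =>
    simp only [ETerm.eval, hs, ht]
    exact ultra_inf N _ _
  | sup s t hs ht =>
    simp only [ETerm.eval, hs, ht]
    exact ultra_sup N _ _
  | compl s hs =>
    simp only [ETerm.eval, hs]
    exact ultra_compl N _

theorem iSup_ulim {Y : Type} (F : ℕ → Y → I) :
    ⨆ b : ℕ → Y, ulim (fun k => F k (b k)) = ulim fun k => ⨆ b, F k b := by
  apply le_antisymm
  · exact iSup_le fun b => le_of_tendsto_of_tendsto' (tendsto_ulim _) (tendsto_ulim _)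
      fun k => le_iSup (F k) (b k)
  · rcases isEmpty_or_nonempty Y with hY | hY
    · simp only [iSup_of_empty]
      rw [ulim_const]
    · refine le_of_forall_lt fun c hc => ?_
      obtain ⟨c', hcc', hc'⟩ := exists_between hc
      have hev' : ∀ᶠ k in UU, c' < ⨆ b, F k b := (tendsto_ulim _).eventually_const_lt hc'
      have : ∀ k, ∃ b, c' < (⨆ b, F k b) → c' < F k b := by
        intro k
        by_cases h : c' < ⨆ b, F k b
        · obtain ⟨b, hb⟩ := lt_iSup_iff.1 h
          exact ⟨b, fun _ => hb⟩
        · exact ⟨Classical.arbitrary Y, fun h' => absurd h' h⟩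
      choose b hb using this
      refine hcc'.trans_le (le_trans ?_ (le_iSup _ b))
      exact ge_of_tendsto (tendsto_ulim _) (hev'.mono fun k hk => (hb k hk).le)

theorem iInf_ulim {Y : Type} (F : ℕ → Y → I) :
    ⨅ b : ℕ → Y, ulim (fun k => F k (b k)) = ulim fun k => ⨅ b, F k b := by
  apply le_antisymm
  · rcases isEmpty_or_nonempty Y with hY | hY
    · simp only [iInf_of_empty]
      rw [ulim_const]
    · refine le_of_forall_gt fun c hc => ?_
      obtain ⟨c', hcc', hc'⟩ := exists_between hc
      have hev' : ∀ᶠ k in UU, ⨅ b, F k b < c' := (tendsto_ulim _).eventually_lt_const hcc'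
      have : ∀ k, ∃ b, (⨅ b, F k b) < c' → F k b < c' := by
        intro k
        by_cases h : ⨅ b, F k b < c'
        · obtain ⟨b, hb⟩ := iInf_lt_iff.1 h
          exact ⟨b, fun _ => hb⟩
        · exact ⟨Classical.arbitrary Y, fun h' => absurd h' h⟩
      choose b hb using this
      refine lt_of_le_of_lt ((iInf_le _ b).trans ?_) hc'
      exact le_of_tendsto (tendsto_ulim _) (hev'.mono fun k hk => (hb k hk).le)
  · exact le_iInf fun b => le_of_tendsto_of_tendsto' (tendsto_ulim _) (tendsto_ulim _)
      fun k => iInf_le (F k) (b k)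

theorem snoc_map {Y Z : Type} (g : Y → Z) {n : ℕ} (x : Fin n → Y) (b : Y) :
    (Fin.snoc (fun i => g (x i)) (g b) : Fin (n + 1) → Z) =
      fun i => g ((Fin.snoc x b : Fin (n + 1) → Y) i) := by
  funext i
  refine Fin.lastCases ?_ (fun i => ?_) i
  · simp
  · simp

theorem sumElim_map {Y Z : Type} (g : Y → Z) {V V' : Type} (a : V → Y) (x : V' → Y) :
    Sum.elim (fun v => g (a v)) (fun i => g (x i)) = fun i => g (Sum.elim a x i) := by
  funext i
  cases i <;> rfl

/-- The fundamental theorem on ultrapowers for continuous logic. -/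
theorem los (N : RStr L) {V W : Type} (a : V → UP N.K) (e : W → UP N.B) {n m : ℕ}
    (φ : CFormula L V W n m) : ∀ (x : Fin n → UP N.K) (y : Fin m → UP N.B),
    φ.eval (ultra N) (fun v => mkK N (a v)) (fun w => mkB N (e w))
      (fun i => mkK N (x i)) (fun i => mkB N (y i)) =
    ulim fun k => φ.eval N (fun v => (a v).seq k) (fun w => (e w).seq k)
      (fun i => (x i).seq k) (fun i => (y i).seq k) := by
  induction φ with
  | mu t =>
    intro x y
    simp only [CFormula.eval]
    rw [sumElim_map (mkK N), sumElim_map (mkB N), eval_term_ultra, ultra_mu]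
    congr 1
    funext k
    rw [sumElim_map (fun f : UP N.K => f.seq k), sumElim_map (fun f : UP N.B => f.seq k)]
  | dK s t =>
    intro x y
    simp only [CFormula.eval]
    rw [sumElim_map (mkK N), ultra_dK]
    congr 1
    funext k
    rw [sumElim_map (fun f : UP N.K => f.seq k)]
  | dB s t =>
    intro x y
    simp only [CFormula.eval]
    rw [sumElim_map (mkK N), sumElim_map (mkB N), eval_term_ultra, eval_term_ultra, ultra_dB]
    congr 1
    funext k
    rw [sumElim_map (fun f : UP N.K => f.seq k), sumElim_map (fun f : UP N.B => f.seq k)]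
  | conn k c φ ih =>
    intro x y
    simp only [CFormula.eval, ih]
    refine (ulim_eq ?_).symm
    refine (c.continuous.tendsto _).comp ?_
    exact tendsto_pi_nhds.2 fun i => tendsto_ulim _
  | supK φ ih =>
    intro x y
    simp only [CFormula.eval]
    rw [← iSup_ulim]
    apply le_antisymm
    · refine iSup_le fun b => ?_
      obtain ⟨b, rfl⟩ := mkK_surj N b
      rw [snoc_map (mkK N), ih]
      refine le_trans (le_of_eq ?_) (le_iSup _ b.seq)
      congr 1
      funext k
      rw [snoc_map (fun f : UP N.K => f.seq k)]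
    · refine iSup_le fun b => ?_
      refine le_trans (le_of_eq ?_) (le_iSup _ (mkK N ⟨b⟩))
      rw [snoc_map (mkK N), ih]
      congr 1
      funext k
      rw [← snoc_map (fun f : UP N.K => f.seq k)]
  | infK φ ih =>
    intro x y
    simp only [CFormula.eval]
    rw [← iInf_ulim]
    apply le_antisymm
    · refine le_iInf fun b => ?_
      refine le_trans (iInf_le _ (mkK N ⟨b⟩)) (le_of_eq ?_)
      rw [snoc_map (mkK N), ih]
      congr 1
      funext k
      rw [← snoc_map (fun f : UP N.K => f.seq k)]
    · refine le_iInf fun b => ?_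
      obtain ⟨b, rfl⟩ := mkK_surj N b
      rw [snoc_map (mkK N), ih]
      refine le_trans (iInf_le _ b.seq) (le_of_eq ?_)
      congr 1
      funext k
      rw [snoc_map (fun f : UP N.K => f.seq k)]
  | supB φ ih =>
    intro x y
    simp only [CFormula.eval]
    rw [← iSup_ulim]
    apply le_antisymm
    · refine iSup_le fun b => ?_
      obtain ⟨b, rfl⟩ := mkB_surj N b
      rw [snoc_map (mkB N), ih]
      refine le_trans (le_of_eq ?_) (le_iSup _ b.seq)
      congr 1
      funext k
      rw [snoc_map (fun f : UP N.B => f.seq k)]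
    · refine iSup_le fun b => ?_
      refine le_trans (le_of_eq ?_) (le_iSup _ (mkB N ⟨b⟩))
      rw [snoc_map (mkB N), ih]
      congr 1
      funext k
      rw [← snoc_map (fun f : UP N.B => f.seq k)]
  | infB φ ih =>
    intro x y
    simp only [CFormula.eval]
    rw [← iInf_ulim]
    apply le_antisymm
    · refine le_iInf fun b => ?_
      refine le_trans (iInf_le _ (mkB N ⟨b⟩)) (le_of_eq ?_)
      rw [snoc_map (mkB N), ih]
      congr 1
      funext k
      rw [← snoc_map (fun f : UP N.B => f.seq k)]
    · refine le_iInf fun b => ?_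
      obtain ⟨b, rfl⟩ := mkB_surj N b
      rw [snoc_map (mkB N), ih]
      refine le_trans (iInf_le _ b.seq) (le_of_eq ?_)
      congr 1
      funext k
      rw [snoc_map (fun f : UP N.B => f.seq k)]

end Ultra

section Product

open Filter

/-- The product space `[0,1]^J` with the product of the Lebesgue measures. -/
noncomputable abbrev prodMeas (J : Type) : Measure (J → I) :=
  Measure.infinitePi fun _ : J => (volume : Measure I)

/-- The number `1/2` in `[0,1]`. -/
noncomputable def half : I := ⟨1 / 2, by norm_num, by norm_num⟩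

theorem prodMeas_coord {J : Type} (j : J) {S : Set I} (hS : MeasurableSet S) :
    prodMeas J {ω | ω j ∈ S} = volume S := by
  have := (measurePreserving_eval_infinitePi (fun _ : J => (volume : Measure I)) j).measure_preimage
    hS.nullMeasurableSet
  exact this

theorem atomless_prodMeas (J : Type) [Nonempty J] : Atomless (prodMeas J) := by
  intro s hs h0
  obtain ⟨j⟩ := ‹Nonempty J›
  have hm : ∀ x : I, MeasurableSet {ω : J → I | ω j ≤ x} := fun x =>
    measurableSet_le (measurable_pi_apply j) measurable_const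
  let g : I → ℝ := fun x => (prodMeas J).real (s ∩ {ω | ω j ≤ x})
  have key : ∀ x y : I, x ≤ y → g y - g x ≤ dist x y ∧ 0 ≤ g y - g x := by
    intro x y hxy
    have hsub : s ∩ {ω | ω j ≤ y} ⊆ (s ∩ {ω | ω j ≤ x}) ∪ {ω : J → I | ω j ∈ Ioc x y} := by
      rintro ω ⟨h1, h2⟩
      by_cases h : ω j ≤ x
      · exact Or.inl ⟨h1, h⟩
      · exact Or.inr ⟨not_le.1 h, h2⟩
    have h1 := (measureReal_mono (μ := prodMeas J) hsub).trans (measureReal_union_le _ _)
    have h2 : (prodMeas J).real {ω : J → I | ω j ∈ Ioc x y} = dist x y := by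
      rw [measureReal_def, prodMeas_coord j measurableSet_Ioc, unitInterval.volume_Ioc,
        ENNReal.toReal_ofReal (sub_nonneg.2 (Subtype.coe_le_coe.2 hxy)), Subtype.dist_eq,
        Real.dist_eq, abs_sub_comm, abs_of_nonneg (sub_nonneg.2 (Subtype.coe_le_coe.2 hxy))]
    have h3 : g x ≤ g y := measureReal_mono
      (inter_subset_inter_right _ fun ω (h : ω j ≤ x) => h.trans hxy)
    constructor
    · have : g y ≤ g x + dist x y := by rw [← h2]; exact h1
      linarith
    · linarith
  have hlip : LipschitzWith 1 g := by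
    refine LipschitzWith.of_dist_le_mul fun x y => ?_
    rw [NNReal.coe_one, one_mul, Real.dist_eq]
    rcases le_total x y with h | h
    · rw [abs_sub_comm, abs_of_nonneg (key x y h).2]
      exact (key x y h).1
    · rw [abs_of_nonneg (key y x h).2, dist_comm]
      exact (key y x h).1
  have hg0 : g 0 = 0 := by
    refine le_antisymm ?_ measureReal_nonneg
    have : (prodMeas J).real {ω : J → I | ω j ∈ Iic 0} = 0 := by
      rw [measureReal_def, prodMeas_coord j measurableSet_Iic, unitInterval.volume_Iic]
      simp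
    rw [← this]
    exact measureReal_mono inter_subset_right
  have hg1 : g 1 = (prodMeas J).real s := by
    have : s ∩ {ω : J → I | ω j ≤ 1} = s := inter_eq_left.2 fun ω _ => (ω j).2.2
    simp only [g, this]
  have hpos : 0 < (prodMeas J).real s := ENNReal.toReal_pos h0.ne' (measure_ne_top _ _)
  obtain ⟨x, hx⟩ : (prodMeas J).real s / 2 ∈ range g := by
    refine mem_range_of_exists_le_of_exists_ge hlip.continuous ⟨0, ?_⟩ ⟨1, ?_⟩
    · rw [hg0]; positivity
    · rw [hg1]; linarith
  refine ⟨s ∩ {ω | ω j ≤ x}, inter_subset_left, hs.inter (hm x), ?_, ?_⟩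
  · have : 0 < g x := by rw [hx]; positivity
    exact (ENNReal.toReal_pos_iff.1 this).1
  · have : g x < (prodMeas J).real s := by rw [hx]; linarith
    exact (ENNReal.toReal_lt_toReal (measure_ne_top _ _) (measure_ne_top _ _)).1 this

/-- The independent events of probability `1/2`. -/
noncomputable def coin (J : Type) (j : J) : Ev (prodMeas J) :=
  ⟨{ω | ω j ∈ Iic half}, measurable_pi_apply j measurableSet_Iic⟩

theorem prodMeas_two {J : Type} {i j : J} (hij : i ≠ j) :
    prodMeas J {ω | ω i ∈ Iic half ∧ ω j ∈ Ioi half} = ENNReal.ofReal (1 / 4) := by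
  classical
  have h := Measure.infinitePi_pi (fun _ : J => (volume : Measure I)) (s := {i, j})
    (t := fun k => if k = i then Iic half else Ioi half) (by
      intro k _
      split_ifs
      · exact measurableSet_Iic
      · exact measurableSet_Ioi)
  have h2 : (Set.pi (({i, j} : Finset J) : Set J)
      fun k => if k = i then Iic half else Ioi half) =
      {ω : J → I | ω i ∈ Iic half ∧ ω j ∈ Ioi half} := by
    ext ω
    simp only [Finset.coe_insert, Finset.coe_singleton, Set.mem_pi, mem_insert_iff,
      mem_singleton_iff, forall_eq_or_imp, forall_eq, if_true, mem_ofPred_eq, if_neg hij.symm]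
  rw [h2] at h
  rw [h, Finset.prod_pair hij, if_pos rfl, if_neg hij.symm, unitInterval.volume_Iic,
    unitInterval.volume_Ioi, ← ENNReal.ofReal_mul (by norm_num [half])]
  norm_num [half]

theorem coin_dist {J : Type} {i j : J} (hij : i ≠ j) : dist (coin J i) (coin J j) = 1 / 2 := by
  rw [Ev.dist_def]
  have h : symmDiff (coin J i).set (coin J j).set =
      {ω : J → I | ω i ∈ Iic half ∧ ω j ∈ Ioi half} ∪
        {ω : J → I | ω j ∈ Iic half ∧ ω i ∈ Ioi half} := by
    ext ω
    simp only [coin, mem_symmDiff, mem_ofPred_eq, mem_union, mem_Iic, mem_Ioi, not_le]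
  rw [h, measureReal_union]
  · rw [measureReal_def, measureReal_def, prodMeas_two hij, prodMeas_two hij.symm,
      ENNReal.toReal_ofReal (by norm_num)]
    norm_num
  · rw [Set.disjoint_left]
    rintro ω ⟨h1, -⟩ ⟨-, h2⟩
    exact absurd (mem_Iic.1 h1) (not_le.2 (mem_Ioi.1 h2))
  · exact ((measurable_pi_apply j) measurableSet_Iic).inter
      ((measurable_pi_apply i) measurableSet_Ioi)

end Product

section BitsTheory

open FirstOrder.Language

/-- The relation symbols of the language of unary predicates `P 0, P 1, P 2, ...`. -/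
inductive BitRel : ℕ → Type
  | P (k : ℕ) : BitRel 1

/-- The language with unary predicates `P 0, P 1, P 2, ...`. -/
def bits : FirstOrder.Language.{0, 0} := ⟨fun _ => Empty, BitRel⟩

/-- The structure on `ℕ`: `P k` holds at `m` iff the `k`-th binary digit of `m` is `1`. -/
instance bitsNat : bits.Structure ℕ where
  funMap f := f.elim
  RelMap {_} r x := match r, x with
    | .P k, x => (x 0).testBit k = true

/-- The theory of infinitely many independent unary predicates. -/
def bitsTheory : bits.Theory := bits.completeTheory ℕ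

theorem bits_card : bits.card ≤ ℵ₀ := by
  have : Countable (Σ l, bits.Functions l) := by
    have : IsEmpty (Σ l, bits.Functions l) := ⟨fun x => Empty.elim x.2⟩
    infer_instance
  have : Countable (Σ l, bits.Relations l) := by
    let f : (Σ l, bits.Relations l) → ℕ := fun x => match x with
      | ⟨_, .P k⟩ => k
    have hf : Function.Injective f := by
      rintro ⟨_, ⟨k⟩⟩ ⟨_, ⟨k'⟩⟩ h
      have : k = k' := h
      rw [this]
    exact hf.countable
  have : Countable bits.Symbols := by
    unfold Symbols
    infer_instance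
  exact Cardinal.mk_le_aleph0

/-- The atomic formula `P k (x)`. -/
def PP (k : ℕ) : bits.Formula (Fin 1) :=
  Relations.formula (L := bits) (BitRel.P k) (fun i => Term.var i)

/-- `P k` in a structure. -/
def HasP (M : Type) [bits.Structure M] (k : ℕ) (x : M) : Prop :=
  Structure.RelMap (L := bits) (BitRel.P k) (fun _ => x)

theorem hasP_nat (k m : ℕ) : HasP ℕ k m ↔ m.testBit k = true := Iff.rfl

theorem realize_PP (M : Type) [bits.Structure M] (k : ℕ) (x : Fin 1 → M) :
    (PP k).Realize x ↔ HasP M k (x 0) := by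
  unfold PP HasP
  rw [Formula.realize_rel]
  have : (fun i => (Term.var i : bits.Term (Fin 1)).realize x) = fun _ => x 0 := by
    funext i
    rw [Subsingleton.elim i 0]
    rfl
  rw [this]

/-- The sentence: for all `x_0, ..., x_{m-1}` there is `y` different from all the `x_i` with
`P i (y)` iff `s i`, for all `i < k`. -/
noncomputable def richSentence (m k : ℕ) (s : ℕ → Bool) : bits.Sentence :=
  BoundedFormula.alls (n := m) (BoundedFormula.ex (
    (BoundedFormula.iInf fun i : Fin m =>
      (BoundedFormula.not (Term.bdEqual (Term.var (Sum.inr (Fin.last m)))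
        (Term.var (Sum.inr i.castSucc))))) ⊓
    (BoundedFormula.iInf fun i : Fin k =>
      bif s i then Relations.boundedFormula (L := bits) (BitRel.P i)
        (fun _ => Term.var (Sum.inr (Fin.last m)))
      else BoundedFormula.not (Relations.boundedFormula (L := bits) (BitRel.P i)
        (fun _ => Term.var (Sum.inr (Fin.last m)))))))

theorem realize_richSentence (M : Type) [bits.Structure M] (m k : ℕ) (s : ℕ → Bool) :
    M ⊨ richSentence m k s ↔
      ∀ x : Fin m → M, ∃ y : M, (∀ i, y ≠ x i) ∧ ∀ i < k, (HasP M i y ↔ s i = true) := by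
  unfold richSentence Sentence.Realize
  rw [BoundedFormula.realize_alls]
  refine forall_congr' fun x => ?_
  rw [BoundedFormula.realize_ex]
  refine exists_congr fun y => ?_
  rw [BoundedFormula.realize_inf, BoundedFormula.realize_iInf, BoundedFormula.realize_iInf]
  refine and_congr (forall_congr' fun i => ?_) ?_
  · simp [BoundedFormula.realize_not, BoundedFormula.realize_bdEqual]
  · constructor
    · intro h i hi
      have := h ⟨i, hi⟩
      rcases hs : s i with _ | _
      · simp only [hs, cond_false, BoundedFormula.realize_not, BoundedFormula.realize_rel] at this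
        simp only [Bool.false_eq_true, iff_false]
        intro h'
        apply this
        unfold HasP at h'
        convert h' using 2
        simp
      · simp only [hs, cond_true, BoundedFormula.realize_rel] at this
        simp only [iff_true]
        unfold HasP
        convert this using 2
        simp
    · intro h i
      have := h i i.2
      rcases hs : s i with _ | _
      · simp only [hs, Bool.false_eq_true, iff_false] at this
        simp only [cond_false, BoundedFormula.realize_not, BoundedFormula.realize_rel]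
        intro h'
        apply this
        unfold HasP
        convert h' using 2
        simp
      · simp only [hs, iff_true] at this
        simp only [cond_true, BoundedFormula.realize_rel]
        unfold HasP at this
        convert this using 2
        simp

/-- A structure is rich if every finite pattern of predicates is realized infinitely often. -/
def Rich (M : Type) [bits.Structure M] : Prop :=
  ∀ (m k : ℕ) (s : ℕ → Bool) (x : Fin m → M),
    ∃ y : M, (∀ i, y ≠ x i) ∧ ∀ i < k, (HasP M i y ↔ s i = true)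

theorem rich_nat : Rich ℕ := by
  intro m k s x
  refine ⟨2 ^ k * (∑ i, x i + 1) + Nat.ofBits fun i : Fin k => s i, fun i => ?_, fun i hi => ?_⟩
  · have h1 : x i ≤ ∑ i, x i := Finset.single_le_sum (fun _ _ => Nat.zero_le _) (Finset.mem_univ i)
    have h2 : 1 ≤ 2 ^ k := Nat.one_le_two_pow
    nlinarith
  · rw [hasP_nat, Nat.testBit_two_pow_mul_add _ (Nat.ofBits_lt_two_pow _), if_pos hi,
      Nat.testBit_ofBits_lt _ _ hi]

theorem rich_of_elementarilyEquivalent (M : Type) [bits.Structure M] [M ⊨ bitsTheory] :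
    Rich M := by
  intro m k s
  rw [← realize_richSentence]
  refine Theory.realize_sentence_of_mem bitsTheory ?_
  change ℕ ⊨ richSentence m k s
  rw [realize_richSentence]
  exact rich_nat m k s

/-- An upper bound for the indices of the predicates occurring in a formula. -/
def bnd {β : Type} : {n : ℕ} → bits.BoundedFormula β n → ℕ
  | _, .falsum => 0
  | _, .equal _ _ => 0
  | _, .rel R _ => match R with
    | .P k => k + 1
  | _, .imp f g => max (bnd f) (bnd g)
  | _, .all f => bnd f

/-- Similarity of two assignments. -/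
def Sim (K : ℕ) {γ M₁ M₂ : Type} [bits.Structure M₁] [bits.Structure M₂] (u₁ : γ → M₁)
    (u₂ : γ → M₂) : Prop :=
  (∀ c, ∀ k < K, (HasP M₁ k (u₁ c) ↔ HasP M₂ k (u₂ c))) ∧ ∀ c c', u₁ c = u₁ c' ↔ u₂ c = u₂ c'

theorem term_eq_var {γ : Type} (t : bits.Term γ) : ∃ c, t = Term.var c := by
  cases t with
  | var c => exact ⟨c, rfl⟩
  | func f _ => exact Empty.elim f

theorem Sim.extend {K : ℕ} {γ M₁ M₂ : Type} [bits.Structure M₁] [bits.Structure M₂]
    (h₂ : Rich M₂) [Finite γ] {u₁ : γ → M₁} {u₂ : γ → M₂} (h : Sim K u₁ u₂) (d₁ : M₁) :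
    ∃ d₂ : M₂, (∀ k < K, (HasP M₁ k d₁ ↔ HasP M₂ k d₂)) ∧ ∀ c, d₁ = u₁ c ↔ d₂ = u₂ c := by
  classical
  by_cases hc : ∃ c, d₁ = u₁ c
  · obtain ⟨c, rfl⟩ := hc
    exact ⟨u₂ c, h.1 c, fun c' => h.2 c c'⟩
  · push Not at hc
    obtain ⟨m, ⟨e⟩⟩ := Finite.exists_equiv_fin γ
    obtain ⟨d₂, hd, hk⟩ := h₂ m K (fun k => decide (HasP M₁ k d₁)) (fun i => u₂ (e.symm i))
    refine ⟨d₂, fun k hk' => ?_, fun c => ?_⟩
    · rw [hk k hk', decide_eq_true_iff]
    · refine iff_of_false (hc c) ?_
      have := hd (e c)
      rwa [e.symm_apply_apply] at this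

theorem Sim.symm {K : ℕ} {γ M₁ M₂ : Type} [bits.Structure M₁] [bits.Structure M₂]
    {u₁ : γ → M₁} {u₂ : γ → M₂} (h : Sim K u₁ u₂) : Sim K u₂ u₁ :=
  ⟨fun c k hk => (h.1 c k hk).symm, fun c c' => (h.2 c c').symm⟩

theorem Sim.mono {K K' : ℕ} (hK : K' ≤ K) {γ M₁ M₂ : Type} [bits.Structure M₁]
    [bits.Structure M₂] {u₁ : γ → M₁} {u₂ : γ → M₂} (h : Sim K u₁ u₂) : Sim K' u₁ u₂ :=
  ⟨fun c k hk => h.1 c k (hk.trans_le hK), h.2⟩

theorem Sim.snoc {K : ℕ} {β M₁ M₂ : Type} [bits.Structure M₁] [bits.Structure M₂] {n : ℕ}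
    {v₁ : β → M₁} {v₂ : β → M₂} {x₁ : Fin n → M₁} {x₂ : Fin n → M₂}
    (h : Sim K (Sum.elim v₁ x₁) (Sum.elim v₂ x₂)) {d₁ : M₁} {d₂ : M₂}
    (h1 : ∀ k < K, (HasP M₁ k d₁ ↔ HasP M₂ k d₂))
    (h2 : ∀ c, d₁ = Sum.elim v₁ x₁ c ↔ d₂ = Sum.elim v₂ x₂ c) :
    Sim K (Sum.elim v₁ (Fin.snoc x₁ d₁ : Fin (n + 1) → M₁))
      (Sum.elim v₂ (Fin.snoc x₂ d₂ : Fin (n + 1) → M₂)) := by
  have key : ∀ c : β ⊕ Fin (n + 1),
      (∃ c' : β ⊕ Fin n, Sum.elim v₁ (Fin.snoc x₁ d₁ : Fin (n + 1) → M₁) c = Sum.elim v₁ x₁ c' ∧
        Sum.elim v₂ (Fin.snoc x₂ d₂ : Fin (n + 1) → M₂) c = Sum.elim v₂ x₂ c') ∨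
      (Sum.elim v₁ (Fin.snoc x₁ d₁ : Fin (n + 1) → M₁) c = d₁ ∧
        Sum.elim v₂ (Fin.snoc x₂ d₂ : Fin (n + 1) → M₂) c = d₂) := by
    rintro (b | i)
    · exact Or.inl ⟨Sum.inl b, rfl, rfl⟩
    · refine Fin.lastCases ?_ (fun i => ?_) i
      · right; simp
      · left; exact ⟨Sum.inr i, by simp, by simp⟩
  constructor
  · intro c k hk
    rcases key c with ⟨c', e1, e2⟩ | ⟨e1, e2⟩
    · rw [e1, e2]; exact h.1 c' k hk
    · rw [e1, e2]; exact h1 k hk
  · intro c c'
    rcases key c with ⟨b, e1, e2⟩ | ⟨e1, e2⟩ <;> rcases key c' with ⟨b', e1', e2'⟩ | ⟨e1', e2'⟩ <;>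
      rw [e1, e2, e1', e2']
    · exact h.2 b b'
    · rw [eq_comm, h2 b, eq_comm]
    · exact h2 b'
    · simp

theorem realize_iff_of_sim {β : Type} [Finite β] {M₁ M₂ : Type} [bits.Structure M₁]
    [bits.Structure M₂] (r₁ : Rich M₁) (r₂ : Rich M₂) {n : ℕ} (φ : bits.BoundedFormula β n) :
    ∀ (v₁ : β → M₁) (v₂ : β → M₂) (x₁ : Fin n → M₁) (x₂ : Fin n → M₂),
      Sim (bnd φ) (Sum.elim v₁ x₁) (Sum.elim v₂ x₂) → (φ.Realize v₁ x₁ ↔ φ.Realize v₂ x₂) := by
  induction φ with
  | falsum => intro _ _ _ _ _; exact Iff.rfl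
  | equal t₁ t₂ =>
    intro v₁ v₂ x₁ x₂ h
    obtain ⟨c, rfl⟩ := term_eq_var t₁
    obtain ⟨c', rfl⟩ := term_eq_var t₂
    exact h.2 c c'
  | rel R ts =>
    intro v₁ v₂ x₁ x₂ h
    cases R with
    | P k =>
      obtain ⟨c, hc⟩ := term_eq_var (ts 0)
      have h1 := h.1 c k (Nat.lt_succ_self k)
      have e1 : (fun i => (ts i).realize (Sum.elim v₁ x₁)) = fun _ => Sum.elim v₁ x₁ c := by
        funext i; rw [Subsingleton.elim i 0, hc]; rfl
      have e2 : (fun i => (ts i).realize (Sum.elim v₂ x₂)) = fun _ => Sum.elim v₂ x₂ c := by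
        funext i; rw [Subsingleton.elim i 0, hc]; rfl
      change Structure.RelMap (L := bits) (BitRel.P k) _ ↔ Structure.RelMap (L := bits) (BitRel.P k) _
      rw [e1, e2]
      exact h1
  | imp f g hf hg =>
    intro v₁ v₂ x₁ x₂ h
    exact imp_congr (hf v₁ v₂ x₁ x₂ (h.mono (le_max_left _ _)))
      (hg v₁ v₂ x₁ x₂ (h.mono (le_max_right _ _)))
  | all f hf =>
    intro v₁ v₂ x₁ x₂ h
    constructor
    · intro H d₂
      obtain ⟨d₁, h1, h2⟩ := h.symm.extend r₁ d₂
      exact (hf v₁ v₂ _ _ (h.snoc (fun k hk => (h1 k hk).symm) fun c => (h2 c).symm)).1 (H d₁)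
    · intro H d₁
      obtain ⟨d₂, h1, h2⟩ := h.extend r₂ d₁
      exact (hf v₁ v₂ _ _ (h.snoc h1 h2)).2 (H d₂)

theorem realize_iff_of_sim' {β : Type} {M₁ M₂ : Type} [bits.Structure M₁]
    [bits.Structure M₂] (r₁ : Rich M₁) (r₂ : Rich M₂) (φ : bits.Formula β)
    (v₁ : β → M₁) (v₂ : β → M₂) (h : ∀ K, Sim K v₁ v₂) : φ.Realize v₁ ↔ φ.Realize v₂ := by
  classical
  unfold Formula.Realize
  rw [← BoundedFormula.realize_restrictFreeVar (φ := φ) (f := id) (v := fun a => v₁ a) v₁
    (fun _ => rfl), ← BoundedFormula.realize_restrictFreeVar (φ := φ) (f := id)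
    (v := fun a => v₂ a) v₂ (fun _ => rfl)]
  apply realize_iff_of_sim r₁ r₂
  constructor
  · rintro (c | i) k hk
    · exact (h (k + 1)).1 c k (Nat.lt_succ_self k)
    · exact i.elim0
  · rintro (c | i) (c' | i')
    · exact (h 0).2 c c'
    · exact i'.elim0
    · exact i.elim0
    · exact i.elim0

end BitsTheory

section FOStability

open FirstOrder.Language

theorem realize_con_iff {M : Type} [bits.Structure M] [Nonempty M] {A : Set M} {M₁ : Type}
    [bits.Structure M₁] [bits[[A]].Structure M₁] [(lhomWithConstants bits A).IsExpansionOn M₁]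
    [M₁ ⊨ bits[[A]].completeTheory M] (φ : bits.Formula A) :
    φ.Realize (fun a => ((bits.con a : bits[[A]].Constants) : M₁)) ↔
      φ.Realize (fun a : A => (a : M)) := by
  rw [← Formula.realize_equivSentence, realize_iff_of_model_completeTheory (M := M) (N := M₁),
    Formula.realize_equivSentence]
  rfl

theorem rich_expansion {M : Type} [bits.Structure M] [Nonempty M] [M ⊨ bitsTheory] {A : Set M}
    {M₁ : Type} [bits.Structure M₁] [bits[[A]].Structure M₁]
    [(lhomWithConstants bits A).IsExpansionOn M₁] [M₁ ⊨ bits[[A]].completeTheory M] :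
    Rich M₁ := by
  intro m k s
  rw [← realize_richSentence, ← LHom.realize_onSentence M₁ (lhomWithConstants bits A),
    realize_iff_of_model_completeTheory (M := M) (N := M₁), LHom.realize_onSentence,
    realize_richSentence]
  exact rich_of_elementarilyEquivalent M m k s

theorem realize_iff_of_data {M : Type} [bits.Structure M] [Nonempty M] [M ⊨ bitsTheory]
    {A : Set M} {n : ℕ} {M₁ M₂ : Type} [bits.Structure M₁] [bits[[A]].Structure M₁]
    [(lhomWithConstants bits A).IsExpansionOn M₁] [M₁ ⊨ bits[[A]].completeTheory M]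
    [bits.Structure M₂] [bits[[A]].Structure M₂]
    [(lhomWithConstants bits A).IsExpansionOn M₂] [M₂ ⊨ bits[[A]].completeTheory M]
    (v : Fin n → M₁) (w : Fin n → M₂) (h1 : ∀ i k, HasP M₁ k (v i) ↔ HasP M₂ k (w i))
    (h2 : ∀ i (a : A), v i = ((bits.con a : bits[[A]].Constants) : M₁) ↔
      w i = ((bits.con a : bits[[A]].Constants) : M₂))
    (h3 : ∀ i j, v i = v j ↔ w i = w j) (φ : bits[[A]].Formula (Fin n)) :
    φ.Realize v ↔ φ.Realize w := by
  unfold Formula.Realize
  rw [← BoundedFormula.realize_constantsVarsEquiv, ← BoundedFormula.realize_constantsVarsEquiv]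
  refine realize_iff_of_sim' (rich_expansion (M := M) (A := A) (M₁ := M₁))
    (rich_expansion (M := M) (A := A) (M₁ := M₂)) _ _ _ fun K => ?_
  have hP : ∀ (N : Type) [bits.Structure N] (k : ℕ) (β : Type) (b : β) (u : β → N),
      (Relations.formula (L := bits) (BitRel.P k) (fun _ => Term.var b)).Realize u ↔
        HasP N k (u b) := by
    intro N _ k β b u
    rw [Formula.realize_rel]
    rfl
  have hE : ∀ (N : Type) [bits.Structure N] (β : Type) (b b' : β) (u : β → N),
      (Term.equal (L := bits) (Term.var b) (Term.var b')).Realize u ↔ u b = u b' := by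
    intro N _ β b b' u
    rw [Formula.realize_equal]
    rfl
  constructor
  · rintro (a | i) k -
    · have e1 := realize_con_iff (M := M) (A := A) (M₁ := M₁)
        (Relations.formula (L := bits) (BitRel.P k) (fun _ => Term.var a))
      have e2 := realize_con_iff (M := M) (A := A) (M₁ := M₂)
        (Relations.formula (L := bits) (BitRel.P k) (fun _ => Term.var a))
      rw [hP] at e1 e2
      exact e1.trans e2.symm
    · exact h1 i k
  · rintro (a | i) (b | j)
    · have e1 := realize_con_iff (M := M) (A := A) (M₁ := M₁)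
        (Term.equal (L := bits) (Term.var a) (Term.var b))
      have e2 := realize_con_iff (M := M) (A := A) (M₁ := M₂)
        (Term.equal (L := bits) (Term.var a) (Term.var b))
      rw [hE] at e1 e2
      exact e1.trans e2.symm
    · exact eq_comm.trans ((h2 j a).trans eq_comm)
    · exact h2 i b
    · exact h3 i j

theorem con_injective {M : Type} [bits.Structure M] [Nonempty M]
    {A : Set M} {M₁ : Type} [bits.Structure M₁] [bits[[A]].Structure M₁]
    [(lhomWithConstants bits A).IsExpansionOn M₁] [M₁ ⊨ bits[[A]].completeTheory M] (a b : A)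
    (h : ((bits.con a : bits[[A]].Constants) : M₁) = ((bits.con b : bits[[A]].Constants) : M₁)) :
    a = b := by
  have e1 := realize_con_iff (M := M) (A := A) (M₁ := M₁)
        (Term.equal (L := bits) (Term.var a) (Term.var b))
  rw [Formula.realize_equal, Formula.realize_equal] at e1
  exact Subtype.ext (e1.1 h)

/-- The data determining a type. -/
noncomputable def data {M : Type} [bits.Structure M] [Nonempty M] {A : Set M} {n : ℕ}
    (p : (bits[[A]].completeTheory M).CompleteType (Fin n)) :
    (Fin n → Set ℕ) × (Fin n → Option A) × (Fin n → Fin n → Prop) :=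
  open Classical in
  letI M₁ := (Theory.exists_modelType_is_realized_in _ p).choose
  letI : bits.Structure M₁ := (lhomWithConstants bits A).reduct M₁
  letI v := (Theory.exists_modelType_is_realized_in _ p).choose_spec.choose
  (fun i => {k | HasP M₁ k (v i)},
    fun i => if h : ∃ a : A, v i = ((bits.con a : bits[[A]].Constants) : M₁) then
      some h.choose else none,
    fun i j => v i = v j)

theorem data_injective {M : Type} [bits.Structure M] [Nonempty M] [M ⊨ bitsTheory] {A : Set M}
    {n : ℕ} : Function.Injective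
      (data : (bits[[A]].completeTheory M).CompleteType (Fin n) → _) := by
  classical
  intro p q hpq
  have hp := (Theory.exists_modelType_is_realized_in _ p).choose_spec.choose_spec
  have hq := (Theory.exists_modelType_is_realized_in _ q).choose_spec.choose_spec
  unfold data at hpq
  simp only [Prod.mk.injEq] at hpq
  revert hp hq hpq
  generalize (Theory.exists_modelType_is_realized_in _ p).choose_spec.choose = v
  generalize (Theory.exists_modelType_is_realized_in _ q).choose_spec.choose = w
  revert v w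
  generalize (Theory.exists_modelType_is_realized_in _ p).choose = M₁
  generalize (Theory.exists_modelType_is_realized_in _ q).choose = M₂
  intro v w hp hq hpq
  let _ : bits.Structure M₁ := (lhomWithConstants bits A).reduct M₁
  let _ : bits.Structure M₂ := (lhomWithConstants bits A).reduct M₂
  have : (lhomWithConstants bits A).IsExpansionOn M₁ := LHom.isExpansionOn_reduct _ _
  have : (lhomWithConstants bits A).IsExpansionOn M₂ := LHom.isExpansionOn_reduct _ _
  obtain ⟨h1, h2, h3⟩ := hpq
  rw [← hp, ← hq]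
  refine SetLike.ext fun φ => ?_
  rw [Theory.CompleteType.mem_typeOf, Theory.CompleteType.mem_typeOf]
  apply realize_iff_of_data (M := M)
  · intro i k
    have := congrFun h1 i
    exact (Set.ext_iff.1 this k)
  · intro i a
    have := congrFun h2 i
    constructor
    · intro h
      have hex : ∃ a : A, v i = ((bits.con a : bits[[A]].Constants) : M₁) := ⟨a, h⟩
      rw [dif_pos hex] at this
      have ha : hex.choose = a := con_injective (M := M) (M₁ := M₁) _ _ (hex.choose_spec.symm.trans h)
      by_cases hex' : ∃ a : A, w i = ((bits.con a : bits[[A]].Constants) : M₂)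
      · rw [dif_pos hex'] at this
        have := Option.some.inj this
        rw [hex'.choose_spec, ← this, ha]
      · rw [dif_neg hex'] at this
        exact absurd this (Option.some_ne_none _)
    · intro h
      have hex : ∃ a : A, w i = ((bits.con a : bits[[A]].Constants) : M₂) := ⟨a, h⟩
      rw [dif_pos hex] at this
      have ha : hex.choose = a := con_injective (M := M) (M₁ := M₂) _ _ (hex.choose_spec.symm.trans h)
      by_cases hex' : ∃ a : A, v i = ((bits.con a : bits[[A]].Constants) : M₁)
      · rw [dif_pos hex'] at this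
        have := Option.some.inj this
        rw [hex'.choose_spec, this, ha]
      · rw [dif_neg hex'] at this
        exact absurd this.symm (Option.some_ne_none _)
  · intro i j
    have := congrFun (congrFun h3 i) j
    exact this.to_iff

theorem fostable_bits {κ : Cardinal.{0}} (hκ : 2 ^ ℵ₀ ≤ κ) : FOStable bitsTheory κ := by
  intro M _ _ _ A hA n
  have h0 : ℵ₀ ≤ κ := (Cardinal.cantor _).le.trans hκ
  have hpow : ∀ c : Cardinal.{0}, c ≤ κ → c ^ (n : Cardinal) ≤ κ := fun c hc =>
    (Cardinal.power_le_power_right hc).trans (Cardinal.power_nat_le h0)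
  refine (Cardinal.mk_le_of_injective data_injective).trans ?_
  rw [Cardinal.mk_prod, Cardinal.mk_prod]
  simp only [Cardinal.lift_id]
  refine Cardinal.mul_le_of_le h0 ?_ (Cardinal.mul_le_of_le h0 ?_ ?_)
  · rw [← Cardinal.power_def, Cardinal.mk_fin]
    apply hpow
    rw [Cardinal.mk_set, Cardinal.mk_nat]
    exact hκ
  · rw [← Cardinal.power_def, Cardinal.mk_fin]
    apply hpow
    rw [Cardinal.mk_option]
    exact Cardinal.add_le_of_le h0 hA (Cardinal.one_le_aleph0.trans h0)
  · exact (Cardinal.lt_aleph0_of_finite _).le.trans h0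

end FOStability

section Main

open FirstOrder.Language

theorem typical_br_mk {L : FirstOrder.Language.{0, 0}} {M : Type} [L.Structure M] {Ω : Type}
    [MeasurableSpace Ω] (μ : Measure Ω) [IsProbabilityMeasure μ] {n : ℕ} (φ : L.Formula (Fin n))
    (f : Fin n → RVar μ M) :
    (typical L M μ).br φ (fun i => SeparationQuotient.mk (f i)) =
      SeparationQuotient.mk (event φ f) := by
  refine mk_eq_of_dist_le ?_
  refine (event_lip φ _ _).trans ?_
  simp only [dist_rep_mk, Finset.sum_const_zero, le_refl]

/-- The random element whose first `k` binary digits are the indicator functions of the given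
independent events. -/
noncomputable def digits {J : Type} (t : ℕ → J) (k : ℕ) : RVar (prodMeas J) ℕ :=
  open Classical in
  { toFun := fun ω => Nat.ofBits fun i : Fin k => decide (ω (t i) ∈ Iic half)
    meas := by
      intro m
      have : (fun ω : J → I => Nat.ofBits fun i : Fin k => decide (ω (t i) ∈ Iic half)) ⁻¹' {m} =
          ⋃ b ∈ {b : Fin k → Bool | Nat.ofBits b = m},
            ⋂ i : Fin k, {ω : J → I | decide (ω (t i) ∈ Iic half) = b i} := by
        ext ω
        simp only [mem_preimage, mem_singleton_iff, mem_ofPred_eq, mem_iUnion, mem_iInter,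
          exists_prop]
        constructor
        · intro h
          exact ⟨_, h, fun i => rfl⟩
        · rintro ⟨b, hb, h⟩
          rw [← hb]
          congr 1
          funext i
          exact h i
      rw [this]
      refine MeasurableSet.biUnion (Set.to_countable _) fun b _ => MeasurableSet.iInter fun i => ?_
      have hm : MeasurableSet {ω : J → I | ω (t i) ∈ Iic half} :=
        measurable_pi_apply (t i) measurableSet_Iic
      rcases hb : b i with _ | _
      · have : {ω : J → I | decide (ω (t i) ∈ Iic half) = false} =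
            {ω : J → I | ω (t i) ∈ Iic half}ᶜ := by
          ext ω
          simp only [mem_ofPred_eq, decide_eq_false_iff_not, mem_compl_iff]
        rw [this]
        exact hm.compl
      · simpa only [decide_eq_true_eq] using hm
    countable_range := Set.to_countable _ }

theorem event_digits {J : Type} (t : ℕ → J) {k n : ℕ} (h : n < k) :
    event (PP n) (fun _ => digits t k) = coin J (t n) := by
  classical
  unfold event coin
  congr 1
  ext ω
  rw [mem_ofPred_eq, realize_PP, mem_ofPred_eq]
  unfold digits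
  simp only
  rw [hasP_nat, Nat.testBit_ofBits_lt _ _ h, decide_eq_true_iff]

/-- The formula `d(⟦P n (x)⟧, c)` where `c` is a parameter. -/
def psi {N : RStr bits} {AK : Set N.K} {AB : Set N.B} (n : ℕ) (c : AB) :
    CFormula bits AK AB 1 0 :=
  CFormula.dB (ETerm.br (PP n) (fun _ => Sum.inr 0)) (ETerm.var (Sum.inl c))

/-- The sentence `d(c, c')` where `c`, `c'` are parameters. -/
def theta {N : RStr bits} {AK : Set N.K} {AB : Set N.B} (c c' : AB) :
    CFormula bits AK AB 0 0 :=
  CFormula.dB (ETerm.var (Sum.inl c)) (ETerm.var (Sum.inl c'))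

theorem tp_psi {N : RStr bits} {AK : Set N.K} {AB : Set N.B} (Q : ModelOver N AK AB)
    (x : Fin 1 → Q.P.K) (y : Fin 0 → Q.P.B) (n : ℕ) (c : AB) :
    (Q.tp x y (psi n c) : ℝ) = dist (Q.P.br (PP n) x) (Q.iB c) := by
  have : x = fun _ => x 0 := by
    funext i; rw [Subsingleton.elim i 0]
  rw [this]
  rfl

theorem dist_iB {N : RStr bits} {AK : Set N.K} {AB : Set N.B} (Q : ModelOver N AK AB)
    (c c' : AB) : dist (Q.iB c) (Q.iB c') = dist (c : N.B) (c' : N.B) :=
  congrArg Subtype.val (Q.elem (theta c c'))

theorem not_cstable_bits {κ : Cardinal.{0}} (h0 : ℵ₀ ≤ κ) (hκ : κ < κ ^ ℵ₀) :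
    ¬ CStable (randomization bitsTheory) κ := by
  classical
  intro H
  -- index set of size `κ`
  let α : Type := κ.out
  have hα : #α = κ := Cardinal.mk_out κ
  have : Infinite α := Cardinal.infinite_iff.2 (hα.symm ▸ h0)
  let J : Type := List α
  have hJ : #J = κ := by rw [← hα]; exact Cardinal.mk_list_eq_mk α
  let μ : Measure (J → I) := prodMeas J
  let N : RStr bits := typical bits ℕ μ
  have hN : N.Models (randomization bitsTheory) := fun s hs =>
    @hs ℕ _ _ (inferInstanceAs (ℕ ⊨ bits.completeTheory ℕ)) (J → I) _ μ _ (atomless_prodMeas J)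
  let cN : J → N.B := fun j => SeparationQuotient.mk (coin J j)
  let AB : Set N.B := range cN
  let AK : Set N.K := ∅
  have hAK : DensityLE AK κ := ⟨∅, Subset.rfl, by simp, by simp [AK]⟩
  have hAB : DensityLE AB κ :=
    ⟨AB, Subset.rfl, Cardinal.mk_range_le.trans hJ.le, subset_closure⟩
  let c : J → AB := fun j => ⟨cN j, mem_range_self j⟩
  have hc : ∀ i j, i ≠ j → dist (c i : N.B) (c j : N.B) = 1 / 2 := by
    intro i j hij
    exact (SeparationQuotient.dist_mk _ _).trans (coin_dist hij)
  obtain ⟨D, -, hDκ, hD⟩ := H N hN AK AB hAK hAB 1 0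
  -- the ultrapower as a model over `A`
  let Q : ModelOver N AK AB :=
    { P := ultra N
      iK := fun a => mkK N ⟨fun _ => a⟩
      iB := fun b => mkB N ⟨fun _ => b⟩
      elem := by
        intro s
        have := los N (fun a : AK => (⟨fun _ => a⟩ : UP N.K)) (fun b : AB => (⟨fun _ => b⟩ : UP N.B))
          s (fun i => i.elim0) (fun i => i.elim0)
        have e1 : (fun i : Fin 0 => mkK N (i.elim0)) = fun i => i.elim0 := Subsingleton.elim _ _
        have e2 : (fun i : Fin 0 => mkB N (i.elim0)) = fun i => i.elim0 := Subsingleton.elim _ _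
        rw [e1, e2] at this
        rw [this, ← ulim_const (CFormula.eval N _ _ s _ _)]
        congr 1
        funext k
        congr 1 <;> exact Subsingleton.elim _ _ }
  -- branches
  let pre : (ℕ → α) → ℕ → J := fun s n => List.ofFn fun i : Fin n => s i
  have hpre : ∀ s s', s ≠ s' → ∃ n, pre s n ≠ pre s' n := by
    intro s s' hs
    by_contra hcon
    push Not at hcon
    apply hs
    funext n
    have h1 := List.ofFn_injective (hcon (n + 1))
    exact congrFun h1 ⟨n, Nat.lt_succ_self n⟩
  let F : (ℕ → α) → UP N.K := fun s =>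
    ⟨fun k => (SeparationQuotient.mk (digits (pre s) k) : SeparationQuotient (RVar μ ℕ))⟩
  have hF : ∀ s n, (ultra N).br (PP n) (fun _ => mkK N (F s)) = Q.iB (c (pre s n)) := by
    intro s n
    rw [ultra_br]
    refine mk_eq_of_dist_le ?_
    refine UP.dist_le_of_eventually ((eventually_ge_UU (n + 1)).mono fun k hk => ?_)
    have : N.br (PP n) (fun _ => (F s).seq k) = c (pre s n) := by
      refine (typical_br_mk μ (PP n) (fun _ => digits (pre s) k)).trans ?_
      rw [event_digits _ (by omega)]
    simp only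
    rw [this, dist_self]
  let p : (ℕ → α) → (CFormula bits AK AB 1 0 → I) := fun s =>
    Q.tp (fun _ => mkK N (F s)) (fun i => i.elim0)
  have hp0 : ∀ s n, (p s (psi n (c (pre s n))) : ℝ) = 0 := by
    intro s n
    rw [tp_psi, dist_eq_zero]
    exact hF s n
  have hp : ∀ s, p s ∈ TypeSpace N AK AB 1 0 := fun s => ⟨Q, _, _, rfl⟩
  choose q hqD hq using fun s => hD (p s) (hp s) (ENNReal.ofReal (1 / 4))
    (ENNReal.ofReal_pos.2 (by norm_num))
  -- a type close to `p s` knows `s`
  have hq' : ∀ s n, (q s (psi n (c (pre s n))) : ℝ) < 1 / 4 := by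
    intro s n
    have := hq s
    unfold typeDist at this
    simp only [iInf_lt_iff] at this
    obtain ⟨R, x, y, x', y', e, e', hd⟩ := this
    have h1 : dist (R.P.br (PP n) x) (R.iB (c (pre s n))) = 0 := by
      rw [← tp_psi R x y, e, hp0]
    have h2 : dist (R.P.br (PP n) x') (R.P.br (PP n) x) ≤ dist x' x := by
      refine (R.P.br_lip _ _ _).trans ?_
      rw [Fin.sum_univ_one]
      exact dist_le_pi_dist x' x 0
    have h3 : dist x' x < 1 / 4 := by
      have : edist x x' < ENNReal.ofReal (1 / 4) := by
        refine lt_of_le_of_lt ?_ hd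
        rw [Prod.edist_eq]
        exact le_max_left _ _
      rw [edist_dist, ENNReal.ofReal_lt_ofReal_iff (by norm_num)] at this
      rwa [dist_comm]
    rw [← e', tp_psi]
    calc dist (R.P.br (PP n) x') (R.iB (c (pre s n)))
        ≤ dist (R.P.br (PP n) x') (R.P.br (PP n) x) +
          dist (R.P.br (PP n) x) (R.iB (c (pre s n))) := dist_triangle _ _ _
      _ < 1 / 4 := by rw [h1, add_zero]; exact h2.trans_lt h3
  have hinj : Function.Injective fun s => (⟨q s, hqD s⟩ : D) := by
    intro s s' hss
    by_contra hne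
    have hqq : q s = q s' := congrArg Subtype.val hss
    obtain ⟨n, hn⟩ := hpre s s' hne
    have a1 := hq' s n
    have a2 := hq' s' n
    rw [← hqq] at a2
    have := hq s
    unfold typeDist at this
    simp only [iInf_lt_iff] at this
    obtain ⟨R, x, y, x', y', e, e', hd⟩ := this
    rw [← e', tp_psi] at a1 a2
    have h3 := dist_triangle_left (R.iB (c (pre s n))) (R.iB (c (pre s' n)))
      (R.P.br (PP n) x')
    rw [dist_iB, hc _ _ hn] at h3
    linarith
  have hcard := Cardinal.mk_le_of_injective hinj
  have : #(ℕ → α) = κ ^ ℵ₀ := by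
    rw [← Cardinal.power_def, Cardinal.mk_nat, hα]
  rw [this] at hcard
  exact absurd (hcard.trans hDκ) (not_le.2 hκ)

theorem exists_cardinal : ∃ κ : Cardinal.{0}, 2 ^ ℵ₀ ≤ κ ∧ κ < κ ^ ℵ₀ := by
  refine ⟨ℶ_ Ordinal.omega0, ?_, ?_⟩
  · have : (2 : Cardinal.{0}) ^ ℵ₀ = ℶ_ 1 := by
      rw [← Cardinal.beth_zero, ← Cardinal.beth_succ]
      simp
    rw [this]
    exact Cardinal.beth_mono (Ordinal.one_lt_omega0.le)
  · have h1 : ℶ_ Ordinal.omega0.{0} ≤ Cardinal.sum fun n : ℕ => ℶ_ (n : Ordinal.{0}) := by
      rw [Cardinal.beth_limit Ordinal.isSuccLimit_omega0]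
      refine ciSup_le' fun a => ?_
      obtain ⟨a, ha⟩ := a
      obtain ⟨n, rfl⟩ := Ordinal.lt_omega0.1 ha
      exact Cardinal.le_sum (fun n : ℕ => ℶ_ (n : Ordinal.{0})) n
    have h2 : (Cardinal.sum fun n : ℕ => ℶ_ (n : Ordinal.{0})) <
        Cardinal.prod fun _ : ℕ => ℶ_ Ordinal.omega0.{0} :=
      Cardinal.sum_lt_prod _ _ fun n =>
        Cardinal.beth_strictMono (Ordinal.natCast_lt_omega0 n)
    rw [Cardinal.prod_const'] at h2
    exact h1.trans_lt (by simpa using h2)

end Main


end Pool.Agent.Results.MP_eefa83_lc.NotPreserved
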